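import Mathlib

/-! Weighted divisor sums: `h n = 1/n`, `h^k` is submultiplicative and
`∑_{n ≤ x} (h^k) n ≤ (log x)^k` for `k ≥ 2`, `x ≥ 1000`. -/

open Finset ArithmeticFunction

namespace Pool.Agent.H73.SM

/-- the arithmetic function `n ↦ 1/n` -/
noncomputable def h : ArithmeticFunction ℝ := ⟨fun n => (n : ℝ)⁻¹, by simp⟩

theorem h_apply (n : ℕ) : h n = (n : ℝ)⁻¹ := rfl

theorem hpow_nonneg (k n : ℕ) : 0 ≤ (h ^ k) n := by
  induction k generalizing n with
  | zero =>
    rw [pow_zero, ArithmeticFunction.one_apply]; split_ifs <;> norm_num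
  | succ k ih =>
    rw [pow_succ', ArithmeticFunction.mul_apply]
    exact Finset.sum_nonneg fun p _ => mul_nonneg (by rw [h_apply]; positivity) (ih _)

theorem hpow_submul (k m n : ℕ) (hm : m ≠ 0) (hn : n ≠ 0) :
    (h ^ k) (m * n) ≤ (h ^ k) m * (h ^ k) n := by
  induction k generalizing m n with
  | zero =>
    simp only [pow_zero, ArithmeticFunction.one_apply]
    by_cases h1 : m * n = 1
    · have := Nat.eq_one_of_mul_eq_one_right h1
      have h2 := Nat.eq_one_of_mul_eq_one_left h1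
      simp [this, h2]
    · rw [if_neg h1]; split_ifs <;> norm_num
  | succ k ih =>
    rw [pow_succ', ArithmeticFunction.mul_apply, ArithmeticFunction.mul_apply,
      ArithmeticFunction.mul_apply]
    rw [Nat.sum_divisorsAntidiagonal (fun a b => h a * (h ^ k) b),
      Nat.sum_divisorsAntidiagonal (fun a b => h a * (h ^ k) b),
      Nat.sum_divisorsAntidiagonal (fun a b => h a * (h ^ k) b)]
    rw [Finset.sum_mul_sum, ← Finset.sum_product']
    set φ : ℕ → ℕ × ℕ := fun e => (Nat.gcd e m, e / Nat.gcd e m) with hφ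
    have hinj : Set.InjOn φ ((m * n).divisors : Set ℕ) := by
      intro a ha b hb hab
      simp only [hφ, Prod.mk.injEq] at hab
      have h1 : a.gcd m * (a / a.gcd m) = a := Nat.mul_div_cancel' (Nat.gcd_dvd_left a m)
      have h2 : b.gcd m * (b / b.gcd m) = b := Nat.mul_div_cancel' (Nat.gcd_dvd_left b m)
      rw [← h1, ← h2]
      exact congrArg₂ (· * ·) hab.1 hab.2
    have hle : ∀ e ∈ (m * n).divisors, h e * (h ^ k) (m * n / e) ≤
        (fun p : ℕ × ℕ => (h p.1 * (h ^ k) (m / p.1)) * (h p.2 * (h ^ k) (n / p.2))) (φ e) := by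
      intro e he
      have hed : e ∣ m * n := Nat.dvd_of_mem_divisors he
      have he0 : e ≠ 0 := by
        rintro rfl
        exact (Nat.mul_ne_zero hm hn) (Nat.eq_zero_of_zero_dvd hed)
      have hg1 : Nat.gcd e m ∣ e := Nat.gcd_dvd_left e m
      have hg2 : Nat.gcd e m ∣ m := Nat.gcd_dvd_right e m
      have hgpos : 0 < Nat.gcd e m := Nat.gcd_pos_of_pos_right _ (Nat.pos_of_ne_zero hm)
      set g := Nat.gcd e m with hg
      have hegn : e / g ∣ n := by
        have hc : Nat.Coprime (e / g) (m / g) := Nat.coprime_div_gcd_div_gcd hgpos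
        refine hc.dvd_of_dvd_mul_left ?_
        have : g * (e / g) ∣ g * (m / g * n) := by
          rw [Nat.mul_div_cancel' hg1, ← mul_assoc, Nat.mul_div_cancel' hg2]
          exact hed
        exact Nat.dvd_of_mul_dvd_mul_left hgpos this
      obtain ⟨a, ha⟩ := hg2
      obtain ⟨b, hb⟩ := hegn
      obtain ⟨c, hc⟩ := hg1
      have hgc : e / g = c := by rw [hc]; exact Nat.mul_div_cancel_left c hgpos
      have hc0 : 0 < c := by
        rcases Nat.eq_zero_or_pos c with h0 | h0
        · rw [h0, mul_zero] at hc; exact absurd hc he0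
        · exact h0
      rw [hgc] at hb
      have e1 : m * n / e = a * b := by
        have : m * n = e * (a * b) := by rw [ha, hb]; conv_rhs => rw [hc]
                                         ring
        rw [this]; exact Nat.mul_div_cancel_left _ (Nat.pos_of_ne_zero he0)
      have e2 : m / g = a := by
        have : m = g * a := ha
        conv_lhs => rw [this]
        exact Nat.mul_div_cancel_left _ hgpos
      have e3 : n / c = b := by rw [hb]; exact Nat.mul_div_cancel_left _ hc0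
      have ha0 : a ≠ 0 := by rintro rfl; exact hm (by rw [ha, mul_zero])
      have hb0 : b ≠ 0 := by rintro rfl; exact hn (by rw [hb, mul_zero])
      have hφe : φ e = (g, c) := by simp only [hφ]; rw [← hg, hgc]
      rw [hφe]
      simp only
      rw [e1, e2, e3]
      have hh : h e = h g * h c := by
        rw [h_apply, h_apply, h_apply, hc]; push_cast; rw [mul_inv]
      rw [hh]
      calc h g * h c * (h ^ k) (a * b) ≤ h g * h c * ((h ^ k) a * (h ^ k) b) :=
            mul_le_mul_of_nonneg_left (ih a b ha0 hb0)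
              (mul_nonneg (by rw [h_apply]; positivity) (by rw [h_apply]; positivity))
        _ = _ := by ring
    calc _ ≤ ∑ e ∈ (m * n).divisors,
        (fun p : ℕ × ℕ => (h p.1 * (h ^ k) (m / p.1)) * (h p.2 * (h ^ k) (n / p.2))) (φ e) :=
          Finset.sum_le_sum hle
      _ = ∑ p ∈ (m * n).divisors.image φ,
        (h p.1 * (h ^ k) (m / p.1)) * (h p.2 * (h ^ k) (n / p.2)) :=
          (Finset.sum_image (f := fun p : ℕ × ℕ =>
            (h p.1 * (h ^ k) (m / p.1)) * (h p.2 * (h ^ k) (n / p.2))) hinj).symm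
      _ ≤ _ := by
        refine Finset.sum_le_sum_of_subset_of_nonneg ?_ ?_
        · intro p hp
          rw [Finset.mem_image] at hp
          obtain ⟨e, he, rfl⟩ := hp
          have hed : e ∣ m * n := Nat.dvd_of_mem_divisors he
          have hgpos : 0 < Nat.gcd e m := Nat.gcd_pos_of_pos_right _ (Nat.pos_of_ne_zero hm)
          rw [Finset.mem_product, Nat.mem_divisors, Nat.mem_divisors]
          refine ⟨⟨Nat.gcd_dvd_right e m, hm⟩, ?_, hn⟩
          simp only [hφ]
          have hc : Nat.Coprime (e / e.gcd m) (m / e.gcd m) := Nat.coprime_div_gcd_div_gcd hgpos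
          refine hc.dvd_of_dvd_mul_left ?_
          have : e.gcd m * (e / e.gcd m) ∣ e.gcd m * (m / e.gcd m * n) := by
            rw [Nat.mul_div_cancel' (Nat.gcd_dvd_left e m), ← mul_assoc,
              Nat.mul_div_cancel' (Nat.gcd_dvd_right e m)]
            exact hed
          exact Nat.dvd_of_mul_dvd_mul_left hgpos this
        · intro p _ _
          exact mul_nonneg (mul_nonneg (by rw [h_apply]; positivity) (hpow_nonneg _ _))
            (mul_nonneg (by rw [h_apply]; positivity) (hpow_nonneg _ _))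

/-- `R k x = ∑_{n ≤ x} (h^k) n` -/
noncomputable def R (k x : ℕ) : ℝ := ∑ n ∈ Finset.Ioc 0 x, (h ^ k) n

theorem R_nonneg (k x : ℕ) : 0 ≤ R k x := Finset.sum_nonneg fun n _ => hpow_nonneg k n

theorem R_mono (k : ℕ) {x y : ℕ} (hxy : x ≤ y) : R k x ≤ R k y :=
  Finset.sum_le_sum_of_subset_of_nonneg (Finset.Ioc_subset_Ioc_right hxy)
    fun n _ _ => hpow_nonneg k n

theorem R_succ (k x : ℕ) : R (k + 1) x = ∑ f ∈ Finset.Ioc 0 x, (f : ℝ)⁻¹ * R k (x / f) := by
  unfold R
  rw [pow_succ', ArithmeticFunction.sum_Ioc_mul_eq_sum_sum]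
  rfl

theorem H_le (n : ℕ) : ∑ f ∈ Finset.Ioc 0 n, (f : ℝ)⁻¹ ≤ 1 + Real.log n := by
  have := harmonic_le_one_add_log n
  rw [harmonic_eq_sum_Icc] at this
  push_cast at this
  exact this

theorem R_succ_le (k x : ℕ) : R (k + 1) x ≤ (1 + Real.log x) * R k x := by
  rw [R_succ]
  calc _ ≤ ∑ f ∈ Finset.Ioc 0 x, (f : ℝ)⁻¹ * R k x :=
        Finset.sum_le_sum fun f _ => mul_le_mul_of_nonneg_left
          (R_mono k (Nat.div_le_self x f)) (by positivity)
    _ = (∑ f ∈ Finset.Ioc 0 x, (f : ℝ)⁻¹) * R k x := (Finset.sum_mul _ _ _).symm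
    _ ≤ _ := mul_le_mul_of_nonneg_right (H_le x) (R_nonneg k x)

theorem sum_aux (x : ℕ) (n : ℕ) (hn : 1 ≤ n) (hnx : n ≤ x) :
    ∑ f ∈ Finset.Ioc 0 n, (f : ℝ)⁻¹ * (1 + Real.log x - Real.log f) ≤
      (1 + Real.log x) + ((1 + Real.log x) * Real.log n - Real.log n ^ 2 / 2) := by
  induction n, hn using Nat.le_induction with
  | base => simp
  | succ n hn ih =>
    rw [← Finset.insert_Ioc_right_eq_Ioc_add_one (by omega), Finset.sum_insert (by simp)]
    have ih' := ih (by omega)
    have hn0 : (0 : ℝ) < n := by exact_mod_cast hn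
    have hn1 : (0 : ℝ) < ((n + 1 : ℕ) : ℝ) := by positivity
    have hδ : ((n + 1 : ℕ) : ℝ)⁻¹ ≤ Real.log ((n + 1 : ℕ) : ℝ) - Real.log n := by
      have := Real.one_sub_inv_le_log_of_pos (show (0 : ℝ) < ((n + 1 : ℕ) : ℝ) / n by positivity)
      rw [Real.log_div hn1.ne' hn0.ne'] at this
      have e : 1 - (((n + 1 : ℕ) : ℝ) / n)⁻¹ = ((n + 1 : ℕ) : ℝ)⁻¹ := by
        push_cast; field_simp; ring
      rw [e] at this
      exact this
    have hlog : Real.log n ≤ Real.log ((n + 1 : ℕ) : ℝ) :=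
      Real.log_le_log hn0 (by push_cast; linarith)
    have hx : Real.log ((n + 1 : ℕ) : ℝ) ≤ Real.log x :=
      Real.log_le_log hn1 (by exact_mod_cast hnx)
    have hkey : ((n + 1 : ℕ) : ℝ)⁻¹ * (1 + Real.log x - Real.log ((n + 1 : ℕ) : ℝ)) ≤
        (Real.log ((n + 1 : ℕ) : ℝ) - Real.log n) *
          (1 + Real.log x - (Real.log ((n + 1 : ℕ) : ℝ) + Real.log n) / 2) := by
      apply mul_le_mul hδ _ (by linarith) (by linarith)
      linarith
    nlinarith [hkey, ih']

theorem B_le (x : ℕ) (hx : 1 ≤ x) :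
    ∑ f ∈ Finset.Ioc 0 x, (f : ℝ)⁻¹ * (1 + Real.log ((x / f : ℕ) : ℝ)) ≤
      1 + 2 * Real.log x + Real.log x ^ 2 / 2 := by
  have h1 := sum_aux x x hx le_rfl
  have h2 : ∑ f ∈ Finset.Ioc 0 x, (f : ℝ)⁻¹ * (1 + Real.log ((x / f : ℕ) : ℝ)) ≤
      ∑ f ∈ Finset.Ioc 0 x, (f : ℝ)⁻¹ * (1 + Real.log x - Real.log f) := by
    refine Finset.sum_le_sum fun f hf => mul_le_mul_of_nonneg_left ?_ (by positivity)
    rw [Finset.mem_Ioc] at hf
    have hf0 : (0 : ℝ) < f := by exact_mod_cast hf.1
    have hx0 : (0 : ℝ) < x := by exact_mod_cast hx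
    have hd : 0 < x / f := Nat.div_pos hf.2 hf.1
    have : Real.log ((x / f : ℕ) : ℝ) ≤ Real.log ((x : ℝ) / f) :=
      Real.log_le_log (by exact_mod_cast hd) Nat.cast_div_le
    rw [Real.log_div hx0.ne' hf0.ne'] at this
    linarith
  nlinarith [h1, h2]

theorem R_add_two_le (k x : ℕ) (hx : 1 ≤ x) :
    R (k + 2) x ≤ (1 + 2 * Real.log x + Real.log x ^ 2 / 2) * R k x := by
  rw [show k + 2 = (k + 1) + 1 from rfl, R_succ]
  calc _ ≤ ∑ f ∈ Finset.Ioc 0 x, ((f : ℝ)⁻¹ * (1 + Real.log ((x / f : ℕ) : ℝ))) * R k x := by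
        refine Finset.sum_le_sum fun f hf => ?_
        rw [mul_assoc]
        refine mul_le_mul_of_nonneg_left ?_ (by positivity)
        rw [Finset.mem_Ioc] at hf
        have hd : 0 < x / f := Nat.div_pos hf.2 hf.1
        have hl : 0 ≤ Real.log ((x / f : ℕ) : ℝ) := Real.log_natCast_nonneg _
        calc _ ≤ (1 + Real.log ((x / f : ℕ) : ℝ)) * R k (x / f) := R_succ_le k _
          _ ≤ _ := mul_le_mul_of_nonneg_left (R_mono k (Nat.div_le_self x f)) (by linarith)
    _ = (∑ f ∈ Finset.Ioc 0 x, ((f : ℝ)⁻¹ * (1 + Real.log ((x / f : ℕ) : ℝ)))) * R k x :=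
        (Finset.sum_mul _ _ _).symm
    _ ≤ _ := mul_le_mul_of_nonneg_right (B_le x hx) (R_nonneg k x)

theorem R_zero (x : ℕ) (hx : 1 ≤ x) : R 0 x = 1 := by
  unfold R
  rw [pow_zero, Finset.sum_eq_single 1]
  · simp
  · intro b _ hb; simp [ArithmeticFunction.one_apply, hb]
  · intro h1; exact absurd (Finset.mem_Ioc.2 ⟨by norm_num, hx⟩) h1

theorem log_ge (x : ℕ) (hx : 1000 ≤ x) : 6.8 ≤ Real.log x := by
  have h1 : Real.log (1000 : ℝ) ≤ Real.log x :=
    Real.log_le_log (by norm_num) (by exact_mod_cast hx)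
  have h2 : (6.8 : ℝ) ≤ Real.log 1000 := by
    rw [Real.le_log_iff_exp_le (by norm_num)]
    have h3 : Real.exp 1 < 2.7182818286 := Real.exp_one_lt_d9
    have h4 : Real.exp 6.8 = Real.exp 1 ^ (6.8 : ℝ) := by
      rw [← Real.exp_mul]; norm_num
    have h5 : Real.exp 6.8 ^ 5 = Real.exp 1 ^ 34 := by
      rw [← Real.exp_nat_mul, ← Real.exp_nat_mul]; norm_num
    have h6 : Real.exp 1 ^ 34 < 1000 ^ 5 := by
      calc Real.exp 1 ^ 34 ≤ 2.7182818286 ^ 34 :=
            pow_le_pow_left₀ (Real.exp_pos 1).le h3.le 34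
        _ < 1000 ^ 5 := by norm_num
    rw [← h5] at h6
    exact (lt_of_pow_lt_pow_left₀ 5 (by norm_num) h6).le
  linarith

theorem R_le (k x : ℕ) (hk : 2 ≤ k) (hx : 1000 ≤ x) : R k x ≤ Real.log x ^ k := by
  have hL := log_ge x hx
  have hL2 : 1 + 2 * Real.log x + Real.log x ^ 2 / 2 ≤ Real.log x ^ 2 := by nlinarith
  have hL0 : 0 ≤ 1 + 2 * Real.log x + Real.log x ^ 2 / 2 := by nlinarith
  have key : ∀ j, R (j + 2) x ≤ Real.log x ^ (j + 2) ∧ R (j + 3) x ≤ Real.log x ^ (j + 3) := by
    intro j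
    induction j with
    | zero =>
      constructor
      · have := R_add_two_le 0 x (by omega)
        rw [R_zero x (by omega)] at this
        simp only [zero_add] at this ⊢
        linarith
      · have h1 := R_add_two_le 1 x (by omega)
        have h2 := R_succ_le 0 x
        rw [R_zero x (by omega)] at h2
        simp only [zero_add] at h2
        have h3 : (1 + 2 * Real.log x + Real.log x ^ 2 / 2) * R 1 x ≤
            (1 + 2 * Real.log x + Real.log x ^ 2 / 2) * ((1 + Real.log x) * 1) :=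
          mul_le_mul_of_nonneg_left h2 hL0
        have h4 : (1 + 2 * Real.log x + Real.log x ^ 2 / 2) * ((1 + Real.log x) * 1) ≤
            Real.log x ^ 3 := by
          have h5 : 0 ≤ (Real.log x - 6.8) * Real.log x ^ 2 := mul_nonneg (by linarith) (sq_nonneg _)
          have h6 : 0 ≤ (Real.log x - 6.8) * Real.log x := mul_nonneg (by linarith) (by linarith)
          nlinarith
        have h7 := h1.trans (h3.trans h4)
        simpa using h7
    | succ j ih =>
      refine ⟨ih.2, ?_⟩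
      have h1 := R_add_two_le (j + 2) x (by omega)
      calc R (j + 1 + 3) x = R (j + 2 + 2) x := rfl
        _ ≤ _ := h1
        _ ≤ Real.log x ^ 2 * Real.log x ^ (j + 2) :=
            mul_le_mul hL2 ih.1 (R_nonneg _ _) (by positivity)
        _ = _ := by rw [← pow_add]; congr 1; omega
  obtain ⟨j, rfl⟩ := Nat.exists_eq_add_of_le hk
  rw [add_comm]
  exact (key j).1

end Pool.Agent.H73.SM
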