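import Pool.Agent.H73.SM.A

/-! Coefficients of `(∑_{n ≤ x} f(n)/√n)^k` and the bound for the sum of their squares. -/

open Finset ArithmeticFunction

namespace Pool.Agent.H73.SM

/-- `u x n = 1/√n` for `n ≤ x`, zero otherwise -/
noncomputable def u (x : ℕ) : ArithmeticFunction ℝ :=
  ⟨fun n => if n ≤ x then (√(n : ℝ))⁻¹ else 0, by simp⟩

theorem u_apply (x n : ℕ) : u x n = if n ≤ x then (√(n : ℝ))⁻¹ else 0 := rfl

theorem u_nonneg (x n : ℕ) : 0 ≤ u x n := by
  rw [u_apply]; split_ifs <;> positivity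

theorem upow_nonneg (x k n : ℕ) : 0 ≤ (u x ^ k) n := by
  induction k generalizing n with
  | zero =>
    rw [pow_zero, ArithmeticFunction.one_apply]; split_ifs <;> norm_num
  | succ k ih =>
    rw [pow_succ', ArithmeticFunction.mul_apply]
    exact Finset.sum_nonneg fun p _ => mul_nonneg (u_nonneg _ _) (ih _)

theorem upow_supp (x k n : ℕ) (hn : x ^ k < n) : (u x ^ k) n = 0 := by
  induction k generalizing n with
  | zero =>
    rw [pow_zero] at hn
    rw [pow_zero, ArithmeticFunction.one_apply, if_neg (by omega)]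
  | succ k ih =>
    rw [pow_succ', ArithmeticFunction.mul_apply]
    refine Finset.sum_eq_zero fun p hp => ?_
    rw [Nat.mem_divisorsAntidiagonal] at hp
    by_cases h1 : p.1 ≤ x
    · by_cases h2 : p.2 ≤ x ^ k
      · exfalso
        have := Nat.mul_le_mul h1 h2
        rw [hp.1, ← pow_succ'] at this
        omega
      · rw [ih _ (by omega), mul_zero]
    · rw [u_apply, if_neg h1, zero_mul]

theorem upow_le (x k n : ℕ) : (u x ^ k) n ≤ √(n : ℝ) * (h ^ k) n := by
  induction k generalizing n with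
  | zero =>
    rw [pow_zero, pow_zero, ArithmeticFunction.one_apply]
    by_cases hn : n = 1
    · simp [hn]
    · simp [hn]
  | succ k ih =>
    rw [pow_succ', pow_succ', ArithmeticFunction.mul_apply, ArithmeticFunction.mul_apply,
      Finset.mul_sum]
    refine Finset.sum_le_sum fun p hp => ?_
    rw [Nat.mem_divisorsAntidiagonal] at hp
    have hp1 : p.1 ≠ 0 := by
      intro h0; rw [h0, zero_mul] at hp; exact hp.2 hp.1.symm
    have h1 : (0 : ℝ) < p.1 := by exact_mod_cast Nat.pos_of_ne_zero hp1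
    have hu : u x p.1 ≤ (√(p.1 : ℝ))⁻¹ := by
      rw [u_apply]; split_ifs
      · exact le_rfl
      · positivity
    have hs : √(n : ℝ) = √(p.1 : ℝ) * √(p.2 : ℝ) := by
      rw [← Real.sqrt_mul h1.le, ← Nat.cast_mul, hp.1]
    have hi : (√(p.1 : ℝ))⁻¹ = √(p.1 : ℝ) * h p.1 := by
      rw [h_apply]
      have h3 : √(p.1 : ℝ) * √(p.1 : ℝ) = p.1 := Real.mul_self_sqrt h1.le
      have h4 : √(p.1 : ℝ) ≠ 0 := (Real.sqrt_pos.2 h1).ne'
      field_simp
      rw [sq, h3]
    calc u x p.1 * (u x ^ k) p.2 ≤ (√(p.1 : ℝ))⁻¹ * (√(p.2 : ℝ) * (h ^ k) p.2) :=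
          mul_le_mul hu (ih _) (upow_nonneg _ _ _) (by positivity)
      _ = _ := by rw [hi, hs]; ring

/-- the weighted sum -/
theorem W_le (x K j N : ℕ) :
    ∑ n ∈ Finset.Ioc 0 N, (u x ^ j) n * (√(n : ℝ) * (h ^ K) n) ≤ (R K x) ^ j := by
  induction j generalizing N with
  | zero =>
    rw [pow_zero, pow_zero]
    have : ∀ n ∈ Finset.Ioc 0 N, ((1 : ArithmeticFunction ℝ) n) * (√(n : ℝ) * (h ^ K) n) =
        if n = 1 then (h ^ K) 1 else 0 := by
      intro n _
      rw [ArithmeticFunction.one_apply]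
      by_cases hn : n = 1
      · simp [hn]
      · simp [hn]
    rw [Finset.sum_congr rfl this, Finset.sum_ite_eq' (Finset.Ioc 0 N) 1]
    have h1 : (h ^ K) 1 = 1 := by
      clear this
      induction K with
      | zero => simp
      | succ K ih => rw [pow_succ, ArithmeticFunction.mul_apply]; simp [ih, h_apply]
    split_ifs
    · exact h1.le
    · norm_num
  | succ j ih =>
    -- weights
    let F : ArithmeticFunction ℝ := ⟨fun n => u x n * (√(n : ℝ) * (h ^ K) n), by simp⟩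
    let G : ArithmeticFunction ℝ := ⟨fun n => (u x ^ j) n * (√(n : ℝ) * (h ^ K) n), by simp⟩
    have hF0 : ∀ n, 0 ≤ F n := fun n =>
      mul_nonneg (u_nonneg _ _) (mul_nonneg (Real.sqrt_nonneg _) (hpow_nonneg _ _))
    have hle : ∀ n ∈ Finset.Ioc 0 N, (u x ^ (j + 1)) n * (√(n : ℝ) * (h ^ K) n) ≤ (F * G) n := by
      intro n hn
      rw [pow_succ', ArithmeticFunction.mul_apply, ArithmeticFunction.mul_apply, Finset.sum_mul]
      refine Finset.sum_le_sum fun p hp => ?_
      rw [Nat.mem_divisorsAntidiagonal] at hp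
      have hp1 : p.1 ≠ 0 := by
        intro h0; rw [h0, zero_mul] at hp; exact hp.2 hp.1.symm
      have hp2 : p.2 ≠ 0 := by
        intro h0; rw [h0, mul_zero] at hp; exact hp.2 hp.1.symm
      have hs : √(n : ℝ) = √(p.1 : ℝ) * √(p.2 : ℝ) := by
        rw [← Real.sqrt_mul (Nat.cast_nonneg _), ← Nat.cast_mul, hp.1]
      have hsub := hpow_submul K p.1 p.2 hp1 hp2
      rw [hp.1] at hsub
      calc _ = (u x p.1 * (u x ^ j) p.2 * (√(p.1 : ℝ) * √(p.2 : ℝ))) * (h ^ K) n := by
            rw [hs]; ring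
        _ ≤ (u x p.1 * (u x ^ j) p.2 * (√(p.1 : ℝ) * √(p.2 : ℝ))) *
            ((h ^ K) p.1 * (h ^ K) p.2) :=
            mul_le_mul_of_nonneg_left hsub (mul_nonneg (mul_nonneg (u_nonneg _ _)
              (upow_nonneg _ _ _)) (by positivity))
        _ = (u x p.1 * (√(p.1 : ℝ) * (h ^ K) p.1)) *
            ((u x ^ j) p.2 * (√(p.2 : ℝ) * (h ^ K) p.2)) := by ring
    refine (Finset.sum_le_sum hle).trans ?_
    rw [ArithmeticFunction.sum_Ioc_mul_eq_sum_sum]
    have hG : ∀ M, ∑ m ∈ Finset.Ioc 0 M, G m ≤ (R K x) ^ j := fun M => ih M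
    calc _ ≤ ∑ n ∈ Finset.Ioc 0 N, F n * (R K x) ^ j :=
          Finset.sum_le_sum fun n _ => mul_le_mul_of_nonneg_left (hG _) (hF0 n)
      _ = (∑ n ∈ Finset.Ioc 0 N, F n) * (R K x) ^ j := (Finset.sum_mul _ _ _).symm
      _ ≤ R K x * (R K x) ^ j := by
          refine mul_le_mul_of_nonneg_right ?_ (pow_nonneg (R_nonneg _ _) _)
          have hFe : ∀ n ∈ Finset.Ioc 0 N, F n = if n ≤ x then (h ^ K) n else 0 := by
            intro n hn
            rw [Finset.mem_Ioc] at hn
            change u x n * (√(n : ℝ) * (h ^ K) n) = _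
            rw [u_apply]
            split_ifs
            · have : √(n : ℝ) ≠ 0 := (Real.sqrt_pos.2 (by exact_mod_cast hn.1)).ne'
              rw [← mul_assoc, inv_mul_cancel₀ this, one_mul]
            · rw [zero_mul]
          rw [Finset.sum_congr rfl hFe, ← Finset.sum_filter]
          unfold R
          refine Finset.sum_le_sum_of_subset_of_nonneg ?_ fun n _ _ => hpow_nonneg _ _
          intro n hn
          rw [Finset.mem_filter, Finset.mem_Ioc] at hn
          exact Finset.mem_Ioc.2 ⟨hn.1.1, hn.2⟩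
      _ = _ := (pow_succ' _ _).symm

theorem sq_sum_le (x k : ℕ) (hk : 2 ≤ k) (hx : 1000 ≤ x) (N : ℕ) :
    ∑ n ∈ Finset.Ioc 0 N, (u x ^ k) n ^ 2 ≤ Real.log x ^ (k ^ 2) := by
  calc ∑ n ∈ Finset.Ioc 0 N, (u x ^ k) n ^ 2
      ≤ ∑ n ∈ Finset.Ioc 0 N, (u x ^ k) n * (√(n : ℝ) * (h ^ k) n) := by
        refine Finset.sum_le_sum fun n _ => ?_
        rw [sq]
        exact mul_le_mul_of_nonneg_left (upow_le x k n) (upow_nonneg _ _ _)
    _ ≤ (R k x) ^ k := W_le x k k N
    _ ≤ (Real.log x ^ k) ^ k := pow_le_pow_left₀ (R_nonneg _ _) (R_le k x hk hx) k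
    _ = _ := by rw [← pow_mul, sq]

/-- the `k`-th power of the partial sum -/
theorem pow_eq (f : ℕ → ℂ) (hf1 : f 1 = 1)
    (hf : ∀ m n, m ≠ 0 → n ≠ 0 → f (m * n) = f m * f n) (x : ℕ) (hx : 1 ≤ x) (k : ℕ) :
    (∑ n ∈ Finset.Ioc 0 x, (((√(n : ℝ))⁻¹ : ℝ) : ℂ) * f n) ^ k =
      ∑ n ∈ Finset.Ioc 0 (x ^ k), (((u x ^ k) n : ℝ) : ℂ) * f n := by
  induction k with
  | zero =>
    rw [pow_zero, pow_zero, pow_zero, show Finset.Ioc 0 1 = {1} from rfl, Finset.sum_singleton, hf1]
    simp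
  | succ k ih =>
    let F : ArithmeticFunction ℂ := ⟨fun n => ((u x n : ℝ) : ℂ) * f n, by simp⟩
    let G : ArithmeticFunction ℂ := ⟨fun n => (((u x ^ k) n : ℝ) : ℂ) * f n, by simp⟩
    have hFG : ∀ n ∈ Finset.Ioc 0 (x ^ (k + 1)),
        (((u x ^ (k + 1)) n : ℝ) : ℂ) * f n = (F * G) n := by
      intro n hn
      rw [pow_succ', ArithmeticFunction.mul_apply, ArithmeticFunction.mul_apply]
      push_cast
      rw [Finset.sum_mul]
      refine Finset.sum_congr rfl fun p hp => ?_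
      rw [Nat.mem_divisorsAntidiagonal] at hp
      have hp1 : p.1 ≠ 0 := by
        intro h0; rw [h0, zero_mul] at hp; exact hp.2 hp.1.symm
      have hp2 : p.2 ≠ 0 := by
        intro h0; rw [h0, mul_zero] at hp; exact hp.2 hp.1.symm
      rw [← hp.1, hf _ _ hp1 hp2]
      change _ = (((u x p.1 : ℝ) : ℂ) * f p.1) * ((((u x ^ k) p.2 : ℝ) : ℂ) * f p.2)
      ring
    rw [Finset.sum_congr rfl hFG, ArithmeticFunction.sum_Ioc_mul_eq_sum_sum]
    have hG : ∀ n ∈ Finset.Ioc 0 (x ^ (k + 1)),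
        F n * ∑ m ∈ Finset.Ioc 0 (x ^ (k + 1) / n), G m =
        (if n ≤ x then (((√(n : ℝ))⁻¹ : ℝ) : ℂ) * f n else 0) *
          ∑ m ∈ Finset.Ioc 0 (x ^ k), G m := by
      intro n hn
      rw [Finset.mem_Ioc] at hn
      change ((u x n : ℝ) : ℂ) * f n * _ = _
      rw [u_apply]
      split_ifs with h1
      · congr 1
        symm
        refine Finset.sum_subset ?_ ?_
        · refine Finset.Ioc_subset_Ioc_right ?_
          rw [Nat.le_div_iff_mul_le hn.1, pow_succ]
          exact Nat.mul_le_mul_left _ h1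
        · intro m _ hm
          rw [Finset.mem_Ioc, not_and, not_le] at hm
          rename_i hm2
          have hm3 := hm (Finset.mem_Ioc.1 hm2).1
          change (((u x ^ k) m : ℝ) : ℂ) * f m = 0
          rw [upow_supp x k m hm3]; simp
      · simp
    rw [Finset.sum_congr rfl hG, ← Finset.sum_mul, ← Finset.sum_filter, pow_succ', ih]
    congr 1
    refine Finset.sum_congr ?_ fun _ _ => rfl
    ext n
    simp only [Finset.mem_filter, Finset.mem_Ioc]
    constructor
    · intro hn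
      refine ⟨⟨hn.1, hn.2.trans ?_⟩, hn.2⟩
      exact Nat.le_self_pow (by omega) x
    · intro hn; exact ⟨hn.1.1, hn.2⟩

end Pool.Agent.H73.SM
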