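import Pool.Agent.H73.SM.B

/-! Mean value in `t` with an explicit length. -/

open Finset ArithmeticFunction MeasureTheory

namespace Pool.Agent.H73.SM

theorem int_cos (θ T : ℝ) (hθ : θ ≠ 0) :
    ∫ t in (0 : ℝ)..T, Real.cos (θ * t) ≤ |θ|⁻¹ := by
  rw [intervalIntegral.integral_comp_mul_left (fun y => Real.cos y) hθ, integral_cos]
  refine (le_abs_self _).trans ?_
  simp only [mul_zero, Real.sin_zero, sub_zero, smul_eq_mul, abs_mul, abs_inv]
  exact mul_le_of_le_one_right (by positivity) (Real.abs_sin_le_one _)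

theorem log_gap {m n N : ℕ} (hm : 0 < m) (hn : 0 < n) (hmN : m ≤ N) (hnN : n ≤ N) (hmn : m ≠ n) :
    |Real.log m - Real.log n|⁻¹ ≤ N * |(m : ℝ) - n|⁻¹ := by
  have key : ∀ a b : ℕ, 0 < a → 0 < b → b ≤ N → a < b →
      |Real.log a - Real.log b|⁻¹ ≤ N * |(a : ℝ) - b|⁻¹ := by
    intro a b ha hb hbN hab
    have ha0 : (0 : ℝ) < a := by exact_mod_cast ha
    have hb0 : (0 : ℝ) < b := by exact_mod_cast hb
    have hab' : (a : ℝ) < b := by exact_mod_cast hab
    have hN0 : (0 : ℝ) < N := by exact_mod_cast hb.trans_le hbN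
    have hbN' : (b : ℝ) ≤ N := by exact_mod_cast hbN
    have h1 := Real.one_sub_inv_le_log_of_pos (show (0 : ℝ) < (b : ℝ) / a by positivity)
    rw [Real.log_div hb0.ne' ha0.ne', inv_div] at h1
    have h2 : ((b : ℝ) - a) / N ≤ 1 - (a : ℝ) / b := by
      rw [show 1 - (a : ℝ) / b = ((b : ℝ) - a) / b by field_simp]
      exact div_le_div_of_nonneg_left (by linarith) hb0 hbN'
    have h3 : |Real.log a - Real.log b| = Real.log b - Real.log a := by
      rw [abs_sub_comm, abs_of_nonneg]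
      linarith [Real.log_lt_log ha0 hab']
    have h4 : |(a : ℝ) - b| = (b : ℝ) - a := by
      rw [abs_sub_comm, abs_of_nonneg]; linarith
    rw [h3, h4]
    have h5 : (0 : ℝ) < ((b : ℝ) - a) / N := div_pos (by linarith) hN0
    calc (Real.log b - Real.log a)⁻¹ ≤ (((b : ℝ) - a) / N)⁻¹ :=
          inv_anti₀ h5 (h2.trans h1)
      _ = N * ((b : ℝ) - a)⁻¹ := by rw [inv_div, div_eq_mul_inv]
  rcases lt_or_gt_of_ne hmn with h | h
  · exact key m n hm hn hnN h
  · rw [abs_sub_comm, abs_sub_comm (m : ℝ)]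
    exact key n m hn hm hmN h

theorem sum_gap {m N : ℕ} (hm : m ∈ Finset.Ioc 0 N) :
    ∑ n ∈ Finset.Ioc 0 N, (if m = n then (0 : ℝ) else |(m : ℝ) - n|⁻¹) ≤
      2 * (1 + Real.log N) := by
  rw [Finset.mem_Ioc] at hm
  have hsplit : ∀ n ∈ Finset.Ioc 0 N, (if m = n then (0 : ℝ) else |(m : ℝ) - n|⁻¹) =
      (if n < m then (((m - n : ℕ) : ℝ))⁻¹ else 0) + (if m < n then (((n - m : ℕ) : ℝ))⁻¹ else 0) := by
    intro n _
    rcases lt_trichotomy m n with h | h | h
    · rw [if_neg h.ne, if_neg (by omega), if_pos h, zero_add, Nat.cast_sub h.le, abs_sub_comm,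
        abs_of_pos]
      have : (m : ℝ) < n := by exact_mod_cast h
      linarith
    · simp [h]
    · rw [if_neg h.ne', if_pos h, if_neg (by omega), add_zero, Nat.cast_sub h.le, abs_of_pos]
      have : (n : ℝ) < m := by exact_mod_cast h
      linarith
  rw [Finset.sum_congr rfl hsplit, Finset.sum_add_distrib, ← Finset.sum_filter,
    ← Finset.sum_filter]
  have hH := H_le N
  have h1 : ∑ n ∈ (Finset.Ioc 0 N).filter (fun n => n < m), (((m - n : ℕ) : ℝ))⁻¹ ≤
      ∑ j ∈ Finset.Ioc 0 N, (j : ℝ)⁻¹ := by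
    rw [← Finset.sum_image (s := (Finset.Ioc 0 N).filter (fun n => n < m)) (g := fun n => m - n)
      (f := fun j : ℕ => (j : ℝ)⁻¹)]
    · refine Finset.sum_le_sum_of_subset_of_nonneg ?_ fun j _ _ => by positivity
      intro j hj
      rw [Finset.mem_image] at hj
      obtain ⟨n, hn, rfl⟩ := hj
      rw [Finset.mem_filter, Finset.mem_Ioc] at hn
      rw [Finset.mem_Ioc]; omega
    · intro a ha b hb hab
      rw [Finset.coe_filter, Set.mem_ofPred_eq, Finset.mem_Ioc] at ha hb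
      simp only at hab; omega
  have h2 : ∑ n ∈ (Finset.Ioc 0 N).filter (fun n => m < n), (((n - m : ℕ) : ℝ))⁻¹ ≤
      ∑ j ∈ Finset.Ioc 0 N, (j : ℝ)⁻¹ := by
    rw [← Finset.sum_image (s := (Finset.Ioc 0 N).filter (fun n => m < n)) (g := fun n => n - m)
      (f := fun j : ℕ => (j : ℝ)⁻¹)]
    · refine Finset.sum_le_sum_of_subset_of_nonneg ?_ fun j _ _ => by positivity
      intro j hj
      rw [Finset.mem_image] at hj
      obtain ⟨n, hn, rfl⟩ := hj
      rw [Finset.mem_filter, Finset.mem_Ioc] at hn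
      rw [Finset.mem_Ioc]; omega
    · intro a ha b hb hab
      rw [Finset.coe_filter, Set.mem_ofPred_eq, Finset.mem_Ioc] at ha hb
      simp only at hab; omega
  linarith

theorem norm_sq_eq (N : ℕ) (c : ℕ → ℝ) (t : ℝ) :
    ‖∑ n ∈ Finset.Ioc 0 N, ((c n : ℝ) : ℂ) * Complex.exp (-((t * Real.log n : ℝ) : ℂ) * Complex.I)‖ ^ 2
      = ∑ m ∈ Finset.Ioc 0 N, ∑ n ∈ Finset.Ioc 0 N,
        c m * c n * Real.cos ((Real.log m - Real.log n) * t) := by
  rw [← Complex.normSq_eq_norm_sq, Complex.normSq_apply, Complex.re_sum, Complex.im_sum]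
  have hre : ∀ n ∈ Finset.Ioc 0 N, (((c n : ℝ) : ℂ) *
      Complex.exp (-((t * Real.log n : ℝ) : ℂ) * Complex.I)).re = c n * Real.cos (t * Real.log n) := by
    intro n _
    rw [Complex.re_ofReal_mul, ← Complex.ofReal_neg, Complex.exp_ofReal_mul_I_re, Real.cos_neg]
  have him : ∀ n ∈ Finset.Ioc 0 N, (((c n : ℝ) : ℂ) *
      Complex.exp (-((t * Real.log n : ℝ) : ℂ) * Complex.I)).im =
        -(c n * Real.sin (t * Real.log n)) := by
    intro n _
    rw [Complex.im_ofReal_mul, ← Complex.ofReal_neg, Complex.exp_ofReal_mul_I_im, Real.sin_neg,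
      mul_neg]
  rw [Finset.sum_congr rfl hre, Finset.sum_congr rfl him, Finset.sum_mul_sum, Finset.sum_mul_sum,
    ← Finset.sum_add_distrib]
  refine Finset.sum_congr rfl fun m _ => ?_
  rw [← Finset.sum_add_distrib]
  refine Finset.sum_congr rfl fun n _ => ?_
  rw [sub_mul, Real.cos_sub, mul_comm t, mul_comm t]
  ring

/-- mean value theorem with an explicit length -/
theorem mean_value (N : ℕ) (c : ℕ → ℝ) (hc : ∀ n, 0 ≤ c n) (T : ℝ) :
    ∫ t in (0 : ℝ)..T, ‖∑ n ∈ Finset.Ioc 0 N,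
        ((c n : ℝ) : ℂ) * Complex.exp (-((t * Real.log n : ℝ) : ℂ) * Complex.I)‖ ^ 2 ≤
      (T + 2 * N * (1 + Real.log N)) * ∑ n ∈ Finset.Ioc 0 N, c n ^ 2 := by
  simp_rw [norm_sq_eq]
  rw [intervalIntegral.integral_finset_sum
    (fun m _ => by apply Continuous.intervalIntegrable; fun_prop)]
  have hI : ∀ m ∈ Finset.Ioc 0 N, ∫ t in (0 : ℝ)..T, ∑ n ∈ Finset.Ioc 0 N,
      c m * c n * Real.cos ((Real.log m - Real.log n) * t) ≤
      ∑ n ∈ Finset.Ioc 0 N, ((if m = n then T * c m ^ 2 else 0) +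
        (c m ^ 2 * (N / 2) * (if m = n then (0 : ℝ) else |(m : ℝ) - n|⁻¹) +
          c n ^ 2 * (N / 2) * (if n = m then (0 : ℝ) else |(n : ℝ) - m|⁻¹))) := by
    intro m hm
    rw [intervalIntegral.integral_finset_sum
      (fun m _ => by apply Continuous.intervalIntegrable; fun_prop)]
    refine Finset.sum_le_sum fun n hn => ?_
    rw [intervalIntegral.integral_const_mul]
    rw [Finset.mem_Ioc] at hm hn
    by_cases hmn : m = n
    · subst hmn
      simp [sq, mul_comm]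
    · rw [if_neg hmn, if_neg hmn, if_neg (Ne.symm hmn), zero_add, abs_sub_comm (n : ℝ)]
      have h0 : Real.log m - Real.log n ≠ 0 := by
        intro h0
        have h1 : (m : ℝ) = n := Real.log_injOn_pos (Set.mem_Ioi.2 (by exact_mod_cast hm.1))
          (Set.mem_Ioi.2 (by exact_mod_cast hn.1)) (by linarith)
        exact hmn (by exact_mod_cast h1)
      have h1 := int_cos _ T h0
      have h2 := log_gap hm.1 hn.1 hm.2 hn.2 hmn
      have h3 : 0 ≤ (N : ℝ) * |(m : ℝ) - n|⁻¹ := by positivity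
      calc c m * c n * ∫ t in (0 : ℝ)..T, Real.cos ((Real.log m - Real.log n) * t)
          ≤ c m * c n * (N * |(m : ℝ) - n|⁻¹) :=
            mul_le_mul_of_nonneg_left (h1.trans h2) (mul_nonneg (hc m) (hc n))
        _ ≤ ((c m ^ 2 + c n ^ 2) / 2) * (N * |(m : ℝ) - n|⁻¹) := by
            refine mul_le_mul_of_nonneg_right ?_ h3
            nlinarith [sq_nonneg (c m - c n)]
        _ = _ := by ring
  refine (Finset.sum_le_sum hI).trans ?_
  simp_rw [Finset.sum_add_distrib]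
  have e1 : ∑ m ∈ Finset.Ioc 0 N, ∑ n ∈ Finset.Ioc 0 N, (if m = n then T * c m ^ 2 else 0) =
      T * ∑ n ∈ Finset.Ioc 0 N, c n ^ 2 := by
    rw [Finset.mul_sum]
    refine Finset.sum_congr rfl fun m hm => ?_
    rw [Finset.sum_ite_eq, if_pos hm]
  have e2 : ∑ m ∈ Finset.Ioc 0 N, ∑ n ∈ Finset.Ioc 0 N,
      c m ^ 2 * (N / 2) * (if m = n then (0 : ℝ) else |(m : ℝ) - n|⁻¹) ≤
      N * (1 + Real.log N) * ∑ n ∈ Finset.Ioc 0 N, c n ^ 2 := by
    rw [Finset.mul_sum]
    refine Finset.sum_le_sum fun m hm => ?_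
    rw [← Finset.mul_sum]
    calc _ ≤ c m ^ 2 * (N / 2) * (2 * (1 + Real.log N)) :=
          mul_le_mul_of_nonneg_left (sum_gap hm) (by positivity)
      _ = _ := by ring
  have e3 : ∑ m ∈ Finset.Ioc 0 N, ∑ n ∈ Finset.Ioc 0 N,
      c n ^ 2 * (N / 2) * (if n = m then (0 : ℝ) else |(n : ℝ) - m|⁻¹) ≤
      N * (1 + Real.log N) * ∑ n ∈ Finset.Ioc 0 N, c n ^ 2 := by
    rw [Finset.sum_comm]; exact e2
  rw [e1]
  linarith

end Pool.Agent.H73.SM
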