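import Pool.Agent.H73.SM.B

/-! `∑_{n ≤ x} (h^k) n ≤ (log x + k)^k / k!` and the comparison with `(log x)^k`. -/

open Finset ArithmeticFunction

namespace Pool.Agent.H73.SM

theorem pow_gap (k : ℕ) {a b : ℝ} (hb : 0 ≤ b) (hab : b ≤ a) :
    b ^ (k + 1) + (k + 1) * b ^ k * (a - b) ≤ a ^ (k + 1) := by
  induction k with
  | zero => simp
  | succ k ih =>
    have h1 : 0 ≤ b ^ k := pow_nonneg hb k
    have h2 : 0 ≤ (k : ℝ) := Nat.cast_nonneg k
    calc b ^ (k + 1 + 1) + (((k + 1 : ℕ) : ℝ) + 1) * b ^ (k + 1) * (a - b)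
        = b ^ (k + 2) + (a - b) * b ^ (k + 1) + (k + 1) * (b ^ k * b) * (a - b) := by
          push_cast; ring
      _ ≤ b ^ (k + 2) + (a - b) * b ^ (k + 1) + (k + 1) * (b ^ k * a) * (a - b) := by
          have : 0 ≤ ((k : ℝ) + 1) * (b ^ k * (a - b)) * (a - b) := by
            have := sub_nonneg.2 hab
            positivity
          nlinarith [this]
      _ = a * (b ^ (k + 1) + (k + 1) * b ^ k * (a - b)) := by ring
      _ ≤ a * a ^ (k + 1) := mul_le_mul_of_nonneg_left ih (hb.trans hab)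
      _ = _ := (pow_succ' _ _).symm

theorem tele (x k : ℕ) (n : ℕ) (hn : 1 ≤ n) (hnx : n ≤ x) :
    ∑ f ∈ Finset.Ioc 0 n, (f : ℝ)⁻¹ * (Real.log x + k - Real.log f) ^ k ≤
      (Real.log x + k) ^ k + ((Real.log x + k) ^ (k + 1) -
        (Real.log x + k - Real.log n) ^ (k + 1)) / (k + 1) := by
  induction n, hn using Nat.le_induction with
  | base => simp
  | succ n hn ih =>
    rw [← Finset.insert_Ioc_right_eq_Ioc_add_one (by omega), Finset.sum_insert (by simp)]
    have ih' := ih (by omega)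
    have hn0 : (0 : ℝ) < n := by exact_mod_cast hn
    have hn1 : (0 : ℝ) < ((n + 1 : ℕ) : ℝ) := by positivity
    have hδ : ((n + 1 : ℕ) : ℝ)⁻¹ ≤ Real.log ((n + 1 : ℕ) : ℝ) - Real.log n := by
      have := Real.one_sub_inv_le_log_of_pos (show (0 : ℝ) < ((n + 1 : ℕ) : ℝ) / n by positivity)
      rw [Real.log_div hn1.ne' hn0.ne'] at this
      have e : 1 - (((n + 1 : ℕ) : ℝ) / n)⁻¹ = ((n + 1 : ℕ) : ℝ)⁻¹ := by
        push_cast; field_simp; ring
      rw [e] at this
      exact this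
    have hlog : Real.log n ≤ Real.log ((n + 1 : ℕ) : ℝ) :=
      Real.log_le_log hn0 (by push_cast; linarith)
    have hx : Real.log ((n + 1 : ℕ) : ℝ) ≤ Real.log x :=
      Real.log_le_log hn1 (by exact_mod_cast hnx)
    have hk : (0 : ℝ) ≤ k := Nat.cast_nonneg k
    have hb : 0 ≤ Real.log x + k - Real.log ((n + 1 : ℕ) : ℝ) := by linarith
    have hg := pow_gap k hb (show Real.log x + k - Real.log ((n + 1 : ℕ) : ℝ) ≤
      Real.log x + k - Real.log n by linarith)
    have hbk := pow_nonneg hb k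
    have h3 : ((n + 1 : ℕ) : ℝ)⁻¹ * (Real.log x + k - Real.log ((n + 1 : ℕ) : ℝ)) ^ k ≤
        ((Real.log x + k - Real.log n) ^ (k + 1) -
          (Real.log x + k - Real.log ((n + 1 : ℕ) : ℝ)) ^ (k + 1)) / (k + 1) := by
      rw [le_div_iff₀ (by positivity)]
      calc ((n + 1 : ℕ) : ℝ)⁻¹ * (Real.log x + k - Real.log ((n + 1 : ℕ) : ℝ)) ^ k * (k + 1)
          ≤ (Real.log ((n + 1 : ℕ) : ℝ) - Real.log n) *
            (Real.log x + k - Real.log ((n + 1 : ℕ) : ℝ)) ^ k * (k + 1) :=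
            mul_le_mul_of_nonneg_right (mul_le_mul_of_nonneg_right hδ hbk) (by positivity)
        _ ≤ _ := by linarith [hg]
    have h4 : ((Real.log x + k) ^ (k + 1) - (Real.log x + k - Real.log n) ^ (k + 1)) / (k + 1) +
        ((Real.log x + k - Real.log n) ^ (k + 1) -
          (Real.log x + k - Real.log ((n + 1 : ℕ) : ℝ)) ^ (k + 1)) / (k + 1) =
        ((Real.log x + k) ^ (k + 1) -
          (Real.log x + k - Real.log ((n + 1 : ℕ) : ℝ)) ^ (k + 1)) / (k + 1) := by
      rw [← add_div]; congr 1; ring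
    linarith

theorem R_le_fac (k x : ℕ) (hx : 1 ≤ x) :
    R k x ≤ (Real.log x + k) ^ k / (k.factorial : ℝ) := by
  induction k generalizing x with
  | zero => rw [R_zero x hx]; simp
  | succ k ih =>
    rw [R_succ]
    have hf : (0 : ℝ) < (k.factorial : ℝ) := by exact_mod_cast k.factorial_pos
    have hL : 0 ≤ Real.log x := Real.log_natCast_nonneg x
    have hk : (0 : ℝ) ≤ k := Nat.cast_nonneg k
    have h1 : ∑ f ∈ Finset.Ioc 0 x, (f : ℝ)⁻¹ * R k (x / f) ≤
        ∑ f ∈ Finset.Ioc 0 x, ((f : ℝ)⁻¹ * (Real.log x + k - Real.log f) ^ k) *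
          (k.factorial : ℝ)⁻¹ := by
      refine Finset.sum_le_sum fun f hf => ?_
      rw [Finset.mem_Ioc] at hf
      have hd : 0 < x / f := Nat.div_pos hf.2 hf.1
      have hf0 : (0 : ℝ) < f := by exact_mod_cast hf.1
      have hx0 : (0 : ℝ) < x := by exact_mod_cast hx
      have h2 := ih (x / f) hd
      have hlog : Real.log ((x / f : ℕ) : ℝ) ≤ Real.log x - Real.log f := by
        have : Real.log ((x / f : ℕ) : ℝ) ≤ Real.log ((x : ℝ) / f) :=
          Real.log_le_log (by exact_mod_cast hd) Nat.cast_div_le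
        rwa [Real.log_div hx0.ne' hf0.ne'] at this
      have h3 : (Real.log ((x / f : ℕ) : ℝ) + k) ^ k ≤ (Real.log x + k - Real.log f) ^ k :=
        pow_le_pow_left₀ (add_nonneg (Real.log_natCast_nonneg _) hk) (by linarith) k
      calc (f : ℝ)⁻¹ * R k (x / f) ≤
          (f : ℝ)⁻¹ * ((Real.log ((x / f : ℕ) : ℝ) + k) ^ k / (k.factorial : ℝ)) :=
            mul_le_mul_of_nonneg_left h2 (by positivity)
        _ ≤ (f : ℝ)⁻¹ * ((Real.log x + k - Real.log f) ^ k / (k.factorial : ℝ)) :=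
            mul_le_mul_of_nonneg_left (div_le_div_of_nonneg_right h3 (by positivity))
              (by positivity)
        _ = _ := by rw [div_eq_mul_inv]; ring
    rw [← Finset.sum_mul] at h1
    have h5 := tele x k x hx le_rfl
    have h6 : (0 : ℝ) ≤ (Real.log x + k - Real.log x) ^ (k + 1) := by
      rw [add_sub_cancel_left]; positivity
    have h7 : (Real.log x + k) ^ k + ((Real.log x + k) ^ (k + 1) -
        (Real.log x + k - Real.log x) ^ (k + 1)) / (k + 1) ≤
        (Real.log x + ((k + 1 : ℕ) : ℝ)) ^ (k + 1) / (k + 1) := by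
      rw [le_div_iff₀ (by positivity), add_mul, div_mul_cancel₀ _ (by positivity)]
      have h8 := pow_gap k (show 0 ≤ Real.log x + k by positivity)
        (show Real.log x + k ≤ Real.log x + ((k + 1 : ℕ) : ℝ) by push_cast; linarith)
      have h9 : Real.log x + ((k + 1 : ℕ) : ℝ) - (Real.log x + k) = 1 := by push_cast; ring
      rw [h9] at h8
      linarith
    calc _ ≤ _ := h1
      _ ≤ ((Real.log x + ((k + 1 : ℕ) : ℝ)) ^ (k + 1) / (k + 1)) * (k.factorial : ℝ)⁻¹ :=
          mul_le_mul_of_nonneg_right (h5.trans h7) (by positivity)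
      _ = _ := by
          rw [Nat.factorial_succ]; push_cast
          field_simp

theorem log_ge' (x : ℕ) (hx : 1000 ≤ x) : 6.9 ≤ Real.log x := by
  have h1 : Real.log (1000 : ℝ) ≤ Real.log x :=
    Real.log_le_log (by norm_num) (by exact_mod_cast hx)
  have h2 : (6.9 : ℝ) ≤ Real.log 1000 := by
    rw [Real.le_log_iff_exp_le (by norm_num)]
    have h3 : Real.exp 1 < 2.7182818286 := Real.exp_one_lt_d9
    have h5 : Real.exp 6.9 ^ 10 = Real.exp 1 ^ 69 := by
      rw [← Real.exp_nat_mul, ← Real.exp_nat_mul]; norm_num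
    have h6 : Real.exp 1 ^ 69 < 1000 ^ 10 := by
      calc Real.exp 1 ^ 69 ≤ 2.7182818286 ^ 69 :=
            pow_le_pow_left₀ (Real.exp_pos 1).le h3.le 69
        _ < 1000 ^ 10 := by norm_num
    rw [← h5] at h6
    exact (lt_of_pow_lt_pow_left₀ 10 (by norm_num) h6).le
  linarith

theorem lin_le {L : ℝ} (hL : 6.9 ≤ L) (k : ℕ) : L + k ≤ (1 + k / 6.9) * L := by
  have : (0 : ℝ) ≤ k * (L - 6.9) := mul_nonneg (Nat.cast_nonneg k) (by linarith)
  have h2 : (1 + (k : ℝ) / 6.9) * L = L + k + k * (L - 6.9) / 6.9 := by ring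
  rw [h2]
  have : (0 : ℝ) ≤ k * (L - 6.9) / 6.9 := by positivity
  linarith

theorem cmp {L : ℝ} (hL : 6.9 ≤ L) (k : ℕ) (hk : 3 ≤ k) :
    (L + k) ^ k / (k.factorial : ℝ) ≤ (1 / 2) * L ^ k := by
  have hL0 : 0 < L := by linarith
  induction k, hk using Nat.le_induction with
  | base =>
    have h1 := pow_le_pow_left₀ (by positivity) (lin_le hL 3) 3
    rw [mul_pow] at h1
    have h2 : (1 + ((3 : ℕ) : ℝ) / 6.9) ^ 3 ≤ 3 := by norm_num
    have h3 : (Nat.factorial 3 : ℝ) = 6 := by norm_num [Nat.factorial]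
    rw [h3]
    have h4 : 0 ≤ L ^ 3 := by positivity
    have h5 := mul_le_mul_of_nonneg_right h2 h4
    linarith
  | succ k hk ih =>
    have hf : (0 : ℝ) < (k.factorial : ℝ) := by exact_mod_cast k.factorial_pos
    rcases Nat.eq_or_lt_of_le hk with h3 | h3
    · subst h3
      have h1 := pow_le_pow_left₀ (by positivity) (lin_le hL 4) 4
      rw [mul_pow] at h1
      have h2 : (1 + ((4 : ℕ) : ℝ) / 6.9) ^ 4 ≤ 12 := by norm_num
      have h3 : (Nat.factorial (3 + 1) : ℝ) = 24 := by norm_num [Nat.factorial]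
      rw [h3]
      have h4 : 0 ≤ L ^ 4 := by positivity
      have h5 := mul_le_mul_of_nonneg_right h2 h4
      have h6 : (3 + 1 : ℕ) = 4 := rfl
      rw [h6]
      linarith
    · have hk4 : (4 : ℝ) ≤ k := by exact_mod_cast h3
      have hk0 : (0 : ℝ) < L + k := by linarith
      have he : (L + ((k + 1 : ℕ) : ℝ)) ^ k ≤ Real.exp 1 * (L + k) ^ k := by
        have h1 : L + ((k + 1 : ℕ) : ℝ) ≤ Real.exp (1 / (L + k)) * (L + k) := by
          have := Real.add_one_le_exp (1 / (L + k))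
          have h2 := mul_le_mul_of_nonneg_right this hk0.le
          have h3 : (1 / (L + k) + 1) * (L + k) = L + ((k + 1 : ℕ) : ℝ) := by
            push_cast; field_simp; ring
          rw [h3] at h2; exact h2
        have h2 := pow_le_pow_left₀ (by positivity) h1 k
        rw [mul_pow, ← Real.exp_nat_mul] at h2
        refine h2.trans (mul_le_mul_of_nonneg_right ?_ (by positivity))
        apply Real.exp_le_exp.2
        rw [mul_one_div, div_le_one hk0]; linarith
      have h5 : Real.exp 1 * (L + ((k + 1 : ℕ) : ℝ)) ≤ (k + 1) * L := by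
        have h3 : Real.exp 1 < 2.7182818286 := Real.exp_one_lt_d9
        have h4 : Real.exp 1 * (L + ((k + 1 : ℕ) : ℝ)) ≤ 2.72 * (L + ((k + 1 : ℕ) : ℝ)) :=
          mul_le_mul_of_nonneg_right (by linarith) (by positivity)
        push_cast at h4 ⊢
        nlinarith
      rw [Nat.factorial_succ]
      rw [div_le_iff₀ hf] at ih
      rw [div_le_iff₀ (by positivity)]
      calc (L + ((k + 1 : ℕ) : ℝ)) ^ (k + 1)
          = (L + ((k + 1 : ℕ) : ℝ)) ^ k * (L + ((k + 1 : ℕ) : ℝ)) := pow_succ _ _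
        _ ≤ (Real.exp 1 * (L + k) ^ k) * (L + ((k + 1 : ℕ) : ℝ)) :=
            mul_le_mul_of_nonneg_right he (by positivity)
        _ = (L + k) ^ k * (Real.exp 1 * (L + ((k + 1 : ℕ) : ℝ))) := by ring
        _ ≤ (L + k) ^ k * ((k + 1) * L) := mul_le_mul_of_nonneg_left h5 (by positivity)
        _ ≤ (1 / 2 * L ^ k * (k.factorial : ℝ)) * ((k + 1) * L) :=
            mul_le_mul_of_nonneg_right ih (by positivity)
        _ = _ := by push_cast; ring

/-- the bound for the sum of the squares of the coefficients -/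
theorem sq_sum_le' (x k : ℕ) (hx : 1 ≤ x) (N : ℕ) :
    ∑ n ∈ Finset.Ioc 0 N, (u x ^ k) n ^ 2 ≤
      (Real.log x + k) ^ (k ^ 2) / (k.factorial : ℝ) ^ k := by
  have hL : 0 ≤ Real.log x := Real.log_natCast_nonneg x
  calc ∑ n ∈ Finset.Ioc 0 N, (u x ^ k) n ^ 2
      ≤ ∑ n ∈ Finset.Ioc 0 N, (u x ^ k) n * (√(n : ℝ) * (h ^ k) n) := by
        refine Finset.sum_le_sum fun n _ => ?_
        rw [sq]
        exact mul_le_mul_of_nonneg_left (upow_le x k n) (upow_nonneg _ _ _)
    _ ≤ (R k x) ^ k := W_le x k k N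
    _ ≤ ((Real.log x + k) ^ k / (k.factorial : ℝ)) ^ k :=
        pow_le_pow_left₀ (R_nonneg _ _) (R_le_fac k x hx) k
    _ = _ := by rw [div_pow, ← pow_mul, sq]

theorem cmp_final (x k : ℕ) (hk : 2 ≤ k) (hx : 1000 ≤ x) :
    (Real.log x + k) ^ (k ^ 2) / (k.factorial : ℝ) ^ k ≤ (7 / 10) * Real.log x ^ (k ^ 2) := by
  have hL := log_ge' x hx
  set L := Real.log x
  have hL0 : 0 < L := by linarith
  have e : (L + k) ^ (k ^ 2) / (k.factorial : ℝ) ^ k = ((L + k) ^ k / (k.factorial : ℝ)) ^ k := by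
    rw [div_pow, ← pow_mul, sq]
  rw [e]
  rcases Nat.eq_or_lt_of_le hk with h2 | h2
  · subst h2
    have h1 := pow_le_pow_left₀ (by positivity) (lin_le hL 2) 4
    rw [mul_pow] at h1
    have h3 : (1 + ((2 : ℕ) : ℝ) / 6.9) ^ 4 ≤ 2.8 := by norm_num
    have h4 : (Nat.factorial 2 : ℝ) = 2 := by norm_num [Nat.factorial]
    rw [h4, div_pow, ← pow_mul]
    have h5 := mul_le_mul_of_nonneg_right h3 (show 0 ≤ L ^ 4 by positivity)
    norm_num at h1 h5 ⊢
    linarith
  · have h3 := cmp hL k h2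
    calc ((L + k) ^ k / (k.factorial : ℝ)) ^ k ≤ ((1 / 2) * L ^ k) ^ k :=
          pow_le_pow_left₀ (by positivity) h3 k
      _ = (1 / 2) ^ k * L ^ (k ^ 2) := by rw [mul_pow, ← pow_mul, sq]
      _ ≤ (7 / 10) * L ^ (k ^ 2) := by
          refine mul_le_mul_of_nonneg_right ?_ (by positivity)
          calc ((1 : ℝ) / 2) ^ k ≤ (1 / 2) ^ 1 :=
                pow_le_pow_of_le_one (by norm_num) (by norm_num) (by omega)
            _ ≤ 7 / 10 := by norm_num

end Pool.Agent.H73.SM
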