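import Pool.Agent.H73.SM.D
import Pool.Agent.H73.SM.E

/-! Mean over all characters to any modulus, and the mean in `t`. -/

open Finset ArithmeticFunction

namespace Pool.Agent.H73.SM

theorem conj_char (q : ℕ) [NeZero q] (χ : DirichletCharacter ℂ q) (a : ZMod q)
    (ha : IsUnit a) : (starRingEnd ℂ) (χ a) = χ a⁻¹ := by
  have h1 : χ a * χ a⁻¹ = 1 := by
    rw [← map_mul, ZMod.mul_inv_of_unit a ha, map_one]
  have h2 : χ a * (starRingEnd ℂ) (χ a) = 1 := by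
    rw [Complex.mul_conj, Complex.normSq_eq_norm_sq]
    have := DirichletCharacter.unit_norm_eq_one χ ha.unit
    rw [IsUnit.unit_spec] at this
    rw [this]; norm_num
  have h0 : χ a ≠ 0 := left_ne_zero_of_mul_eq_one h1
  exact mul_left_cancel₀ h0 (h2.trans h1.symm)

theorem orth (q : ℕ) [NeZero q] (m n : ℕ) :
    ∑ χ : DirichletCharacter ℂ q, χ (m : ZMod q) * (starRingEnd ℂ) (χ (n : ZMod q)) =
      if (m : ZMod q) = (n : ZMod q) ∧ IsUnit (n : ZMod q) then (q.totient : ℂ) else 0 := by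
  by_cases hu : IsUnit (n : ZMod q)
  · have h1 : ∀ χ : DirichletCharacter ℂ q, χ (m : ZMod q) * (starRingEnd ℂ) (χ (n : ZMod q)) =
        χ (n : ZMod q)⁻¹ * χ (m : ZMod q) := by
      intro χ; rw [conj_char q χ _ hu]; ring
    rw [Finset.sum_congr rfl fun χ _ => h1 χ, DirichletCharacter.sum_char_inv_mul_char_eq ℂ hu]
    simp only [hu, and_true, eq_comm]
  · rw [if_neg (fun h => hu h.2)]
    refine Finset.sum_eq_zero fun χ _ => ?_
    rw [MulChar.map_nonunit χ hu]; simp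

theorem card_class (q : ℕ) [NeZero q] (M m : ℕ) :
    (((Finset.Ioc 0 M).filter fun n : ℕ => (m : ZMod q) = (n : ZMod q)).card : ℝ) ≤
      (⌈(M : ℝ) / q⌉₊ : ℝ) := by
  have hq : 0 < q := Nat.pos_of_ne_zero (NeZero.ne q)
  have hq' : (0 : ℝ) < q := by exact_mod_cast hq
  have : ((Finset.Ioc 0 M).filter fun n : ℕ => (m : ZMod q) = (n : ZMod q)).card ≤
      (Finset.range ⌈(M : ℝ) / q⌉₊).card := by
    refine Finset.card_le_card_of_injOn (fun n => (n - 1) / q) ?_ ?_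
    · intro n hn
      rw [Finset.coe_filter, Set.mem_ofPred_eq, Finset.mem_Ioc] at hn
      rw [Finset.mem_coe, Finset.mem_range, Nat.lt_ceil, lt_div_iff₀ hq']
      have h1 : (n - 1) / q * q ≤ n - 1 := Nat.div_mul_le_self _ _
      have h2 : (n - 1) / q * q < M := by omega
      exact_mod_cast h2
    · intro a ha b hb hab
      rw [Finset.coe_filter, Set.mem_ofPred_eq, Finset.mem_Ioc] at ha hb
      simp only at hab
      have h1 : (a : ZMod q) = (b : ZMod q) := ha.2.symm.trans hb.2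
      have h2 : a ≡ b [MOD q] := (ZMod.natCast_eq_natCast_iff a b q).1 h1
      have h3 : (a - 1) ≡ (b - 1) [MOD q] := by
        have : (a - 1) + 1 ≡ (b - 1) + 1 [MOD q] := by
          rw [Nat.sub_add_cancel ha.1.1, Nat.sub_add_cancel hb.1.1]; exact h2
        exact Nat.ModEq.add_right_cancel' 1 this
      have h4 := Nat.div_add_mod (a - 1) q
      have h5 := Nat.div_add_mod (b - 1) q
      have h6 : (a - 1) % q = (b - 1) % q := h3
      rw [hab, h6] at h4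
      have h7 : a - 1 = b - 1 := h4.symm.trans h5
      have := ha.1.1; have := hb.1.1
      omega
  rw [Finset.card_range] at this
  exact_mod_cast this

/-- mean square over characters of a sum with nonnegative coefficients -/
theorem mean_sq_le (q : ℕ) [NeZero q] (M : ℕ) (c : ℕ → ℝ) (hc : ∀ n, 0 ≤ c n) :
    (∑ χ : DirichletCharacter ℂ q,
      ‖∑ n ∈ Finset.Ioc 0 M, ((c n : ℝ) : ℂ) * χ (n : ZMod q)‖ ^ 2) / (q.totient : ℝ) ≤
      (⌈(M : ℝ) / q⌉₊ : ℝ) * ∑ n ∈ Finset.Ioc 0 M, c n ^ 2 := by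
  classical
  have hφ : (0 : ℝ) < (q.totient : ℝ) := by
    exact_mod_cast Nat.totient_pos.2 (Nat.pos_of_ne_zero (NeZero.ne q))
  have key : ((∑ χ : DirichletCharacter ℂ q,
      ‖∑ n ∈ Finset.Ioc 0 M, ((c n : ℝ) : ℂ) * χ (n : ZMod q)‖ ^ 2 : ℝ) : ℂ) =
      ((∑ m ∈ Finset.Ioc 0 M, ∑ n ∈ Finset.Ioc 0 M,
        if (m : ZMod q) = (n : ZMod q) ∧ IsUnit (n : ZMod q) then c m * c n * q.totient else 0 : ℝ)
          : ℂ) := by
    rw [Complex.ofReal_sum]
    have h1 : ∀ χ : DirichletCharacter ℂ q,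
        ((‖∑ n ∈ Finset.Ioc 0 M, ((c n : ℝ) : ℂ) * χ (n : ZMod q)‖ ^ 2 : ℝ) : ℂ) =
        ∑ m ∈ Finset.Ioc 0 M, ∑ n ∈ Finset.Ioc 0 M,
          (((c m : ℝ) : ℂ) * ((c n : ℝ) : ℂ)) *
            (χ (m : ZMod q) * (starRingEnd ℂ) (χ (n : ZMod q))) := by
      intro χ
      rw [← Complex.normSq_eq_norm_sq, ← Complex.mul_conj, map_sum, Finset.sum_mul_sum]
      refine Finset.sum_congr rfl fun m _ => Finset.sum_congr rfl fun n _ => ?_
      rw [map_mul, Complex.conj_ofReal]; ring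
    rw [Finset.sum_congr rfl fun χ _ => h1 χ, Finset.sum_comm]
    rw [Complex.ofReal_sum]
    refine Finset.sum_congr rfl fun m hm => ?_
    rw [Finset.sum_comm, Complex.ofReal_sum]
    refine Finset.sum_congr rfl fun n hn => ?_
    rw [← Finset.mul_sum, orth q m n]
    split_ifs <;> push_cast
    · rfl
    · ring
  have key' := Complex.ofReal_injective key
  rw [key', div_le_iff₀ hφ]
  have h2 : ∑ m ∈ Finset.Ioc 0 M, ∑ n ∈ Finset.Ioc 0 M,
        (if (m : ZMod q) = (n : ZMod q) ∧ IsUnit (n : ZMod q) then c m * c n * q.totient else 0) ≤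
      ∑ m ∈ Finset.Ioc 0 M, ∑ n ∈ Finset.Ioc 0 M,
        ((if (m : ZMod q) = (n : ZMod q) then c m ^ 2 / 2 * q.totient else 0) +
          (if (n : ZMod q) = (m : ZMod q) then c n ^ 2 / 2 * q.totient else 0)) := by
    refine Finset.sum_le_sum fun m _ => Finset.sum_le_sum fun n _ => ?_
    by_cases h : (m : ZMod q) = (n : ZMod q)
    · rw [if_pos h, if_pos h.symm]
      split_ifs
      · have h3 : c m * c n ≤ c m ^ 2 / 2 + c n ^ 2 / 2 := by nlinarith [sq_nonneg (c m - c n)]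
        calc _ ≤ (c m ^ 2 / 2 + c n ^ 2 / 2) * (q.totient : ℝ) :=
              mul_le_mul_of_nonneg_right h3 hφ.le
          _ = _ := by ring
      · positivity
    · have h' : ¬ ((n : ZMod q) = (m : ZMod q)) := fun e => h e.symm
      simp [h, h']
  refine h2.trans ?_
  simp_rw [Finset.sum_add_distrib]
  have e1 : ∑ m ∈ Finset.Ioc 0 M, ∑ n ∈ Finset.Ioc 0 M,
      (if (m : ZMod q) = (n : ZMod q) then c m ^ 2 / 2 * (q.totient : ℝ) else 0) ≤
      (⌈(M : ℝ) / q⌉₊ : ℝ) * (∑ n ∈ Finset.Ioc 0 M, c n ^ 2) * q.totient / 2 := by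
    have : (⌈(M : ℝ) / q⌉₊ : ℝ) * (∑ n ∈ Finset.Ioc 0 M, c n ^ 2) * q.totient / 2 =
        ∑ n ∈ Finset.Ioc 0 M, (⌈(M : ℝ) / q⌉₊ : ℝ) * (c n ^ 2 / 2 * q.totient) := by
      rw [← Finset.mul_sum, ← Finset.sum_mul, ← Finset.sum_div]; ring
    rw [this]
    refine Finset.sum_le_sum fun m _ => ?_
    rw [← Finset.sum_filter, Finset.sum_const, nsmul_eq_mul]
    exact mul_le_mul_of_nonneg_right (card_class q M m) (by positivity)
  have e2 : ∑ m ∈ Finset.Ioc 0 M, ∑ n ∈ Finset.Ioc 0 M,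
      (if (n : ZMod q) = (m : ZMod q) then c n ^ 2 / 2 * (q.totient : ℝ) else 0) ≤
      (⌈(M : ℝ) / q⌉₊ : ℝ) * (∑ n ∈ Finset.Ioc 0 M, c n ^ 2) * q.totient / 2 := by
    rw [Finset.sum_comm]; exact e1
  linarith

theorem char_moment (k x : ℕ) (hx : 1 ≤ x) (q : ℕ) [NeZero q] :
    (∑ χ : DirichletCharacter ℂ q,
      ‖∑ n ∈ Finset.Ioc 0 x, (((√(n : ℝ))⁻¹ : ℝ) : ℂ) * χ (n : ZMod q)‖ ^ (2 * k)) /
        (q.totient : ℝ) ≤ (⌈((x ^ k : ℕ) : ℝ) / q⌉₊ : ℝ) *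
          ((Real.log x + k) ^ (k ^ 2) / (k.factorial : ℝ) ^ k) := by
  have h1 : ∀ χ : DirichletCharacter ℂ q,
      ‖∑ n ∈ Finset.Ioc 0 x, (((√(n : ℝ))⁻¹ : ℝ) : ℂ) * χ (n : ZMod q)‖ ^ (2 * k) =
      ‖∑ n ∈ Finset.Ioc 0 (x ^ k), (((u x ^ k) n : ℝ) : ℂ) * χ (n : ZMod q)‖ ^ 2 := by
    intro χ
    rw [← pow_eq (fun n => χ (n : ZMod q)) (by simp) (fun m n _ _ => by simp) x hx k,
      norm_pow, ← pow_mul, mul_comm]
  rw [Finset.sum_congr rfl fun χ _ => h1 χ]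
  exact (mean_sq_le q (x ^ k) _ (upow_nonneg x k)).trans
    (mul_le_mul_of_nonneg_left (sq_sum_le' x k hx _) (by positivity))

theorem t_moment (k x : ℕ) (hx : 1 ≤ x) (T : ℝ) (hT : 0 ≤ T) :
    ∫ t in (0 : ℝ)..T, ‖∑ n ∈ Finset.Ioc 0 x, (((√(n : ℝ))⁻¹ : ℝ) : ℂ) *
        Complex.exp (-((t * Real.log n : ℝ) : ℂ) * Complex.I)‖ ^ (2 * k) ≤
      (T + 2 * x ^ k * (1 + k * Real.log x)) *
          ((Real.log x + k) ^ (k ^ 2) / (k.factorial : ℝ) ^ k) := by
  have h1 : ∀ t : ℝ, ‖∑ n ∈ Finset.Ioc 0 x, (((√(n : ℝ))⁻¹ : ℝ) : ℂ) *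
        Complex.exp (-((t * Real.log n : ℝ) : ℂ) * Complex.I)‖ ^ (2 * k) =
      ‖∑ n ∈ Finset.Ioc 0 (x ^ k), (((u x ^ k) n : ℝ) : ℂ) *
        Complex.exp (-((t * Real.log n : ℝ) : ℂ) * Complex.I)‖ ^ 2 := by
    intro t
    rw [← pow_eq (fun n => Complex.exp (-((t * Real.log n : ℝ) : ℂ) * Complex.I)) (by simp)
      (fun m n hm hn => by
        rw [← Complex.exp_add]
        congr 1
        rw [Nat.cast_mul, Real.log_mul (by exact_mod_cast hm) (by exact_mod_cast hn)]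
        push_cast; ring) x hx k,
      norm_pow, ← pow_mul, mul_comm]
  simp_rw [h1]
  refine (mean_value (x ^ k) _ (upow_nonneg x k) T).trans ?_
  have h2 : Real.log ((x ^ k : ℕ) : ℝ) = k * Real.log x := by
    push_cast; rw [Real.log_pow]
  rw [h2]
  push_cast
  have hL : 0 ≤ Real.log x := Real.log_natCast_nonneg x
  exact mul_le_mul_of_nonneg_left (sq_sum_le' x k hx _) (by positivity)

end Pool.Agent.H73.SM
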