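import Pool.Agent.H73.SM.F

/-! The same with arbitrary complex coefficients of modulus at most one. -/

open Finset ArithmeticFunction MeasureTheory

namespace Pool.Agent.H73.SM

/-- `v a x n = a n / √n` for `n ≤ x`, zero otherwise -/
noncomputable def v (a : ℕ → ℂ) (x : ℕ) : ArithmeticFunction ℂ :=
  ⟨fun n => ((u x n : ℝ) : ℂ) * a n, by simp⟩

theorem v_apply (a : ℕ → ℂ) (x n : ℕ) : v a x n = ((u x n : ℝ) : ℂ) * a n := rfl

theorem vpow_le (a : ℕ → ℂ) (ha : ∀ n, ‖a n‖ ≤ 1) (x k n : ℕ) :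
    ‖(v a x ^ k) n‖ ≤ (u x ^ k) n := by
  induction k generalizing n with
  | zero =>
    rw [pow_zero, pow_zero, ArithmeticFunction.one_apply, ArithmeticFunction.one_apply]
    split_ifs <;> simp
  | succ k ih =>
    rw [pow_succ', pow_succ', ArithmeticFunction.mul_apply, ArithmeticFunction.mul_apply]
    refine (norm_sum_le _ _).trans (Finset.sum_le_sum fun p _ => ?_)
    rw [norm_mul]
    refine mul_le_mul ?_ (ih _) (norm_nonneg _) (u_nonneg _ _)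
    rw [v_apply, norm_mul, Complex.norm_real, Real.norm_of_nonneg (u_nonneg _ _)]
    exact mul_le_of_le_one_right (u_nonneg _ _) (ha _)

theorem pow_eq' (a : ℕ → ℂ) (ha : ∀ n, ‖a n‖ ≤ 1) (f : ℕ → ℂ) (hf1 : f 1 = 1)
    (hf : ∀ m n, m ≠ 0 → n ≠ 0 → f (m * n) = f m * f n) (x : ℕ) (k : ℕ) :
    (∑ n ∈ Finset.Ioc 0 x, (((√(n : ℝ))⁻¹ : ℝ) : ℂ) * a n * f n) ^ k =
      ∑ n ∈ Finset.Ioc 0 (x ^ k), (v a x ^ k) n * f n := by
  induction k with
  | zero =>
    rw [pow_zero, pow_zero, pow_zero, show Finset.Ioc 0 1 = {1} from rfl, Finset.sum_singleton, hf1]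
    simp
  | succ k ih =>
    let F : ArithmeticFunction ℂ := ⟨fun n => v a x n * f n, by simp⟩
    let G : ArithmeticFunction ℂ := ⟨fun n => (v a x ^ k) n * f n, by simp⟩
    have hFG : ∀ n ∈ Finset.Ioc 0 (x ^ (k + 1)),
        (v a x ^ (k + 1)) n * f n = (F * G) n := by
      intro n hn
      rw [pow_succ', ArithmeticFunction.mul_apply, ArithmeticFunction.mul_apply]
      rw [Finset.sum_mul]
      refine Finset.sum_congr rfl fun p hp => ?_
      rw [Nat.mem_divisorsAntidiagonal] at hp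
      have hp1 : p.1 ≠ 0 := by
        intro h0; rw [h0, zero_mul] at hp; exact hp.2 hp.1.symm
      have hp2 : p.2 ≠ 0 := by
        intro h0; rw [h0, mul_zero] at hp; exact hp.2 hp.1.symm
      rw [← hp.1, hf _ _ hp1 hp2]
      change _ = (v a x p.1 * f p.1) * ((v a x ^ k) p.2 * f p.2)
      ring
    rw [Finset.sum_congr rfl hFG, ArithmeticFunction.sum_Ioc_mul_eq_sum_sum]
    have hG : ∀ n ∈ Finset.Ioc 0 (x ^ (k + 1)),
        F n * ∑ m ∈ Finset.Ioc 0 (x ^ (k + 1) / n), G m =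
        (if n ≤ x then (((√(n : ℝ))⁻¹ : ℝ) : ℂ) * a n * f n else 0) *
          ∑ m ∈ Finset.Ioc 0 (x ^ k), G m := by
      intro n hn
      rw [Finset.mem_Ioc] at hn
      change ((u x n : ℝ) : ℂ) * a n * f n * _ = _
      rw [u_apply]
      split_ifs with h1
      · congr 1
        symm
        refine Finset.sum_subset ?_ ?_
        · refine Finset.Ioc_subset_Ioc_right ?_
          rw [Nat.le_div_iff_mul_le hn.1, pow_succ]
          exact Nat.mul_le_mul_left _ h1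
        · intro m hm2 hm
          rw [Finset.mem_Ioc, not_and, not_le] at hm
          have hm3 := hm (Finset.mem_Ioc.1 hm2).1
          change (v a x ^ k) m * f m = 0
          have h4 := vpow_le a ha x k m
          rw [upow_supp x k m hm3] at h4
          rw [norm_le_zero_iff.1 h4, zero_mul]
      · simp
    rw [Finset.sum_congr rfl hG, ← Finset.sum_mul, ← Finset.sum_filter, pow_succ', ih]
    congr 1
    refine Finset.sum_congr ?_ fun _ _ => rfl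
    ext n
    simp only [Finset.mem_filter, Finset.mem_Ioc]
    constructor
    · intro hn
      refine ⟨⟨hn.1, hn.2.trans ?_⟩, hn.2⟩
      exact Nat.le_self_pow (by omega) x
    · intro hn; exact ⟨hn.1.1, hn.2⟩

theorem int_cs (z : ℂ) (θ T : ℝ) (hθ : θ ≠ 0) :
    ∫ t in (0 : ℝ)..T, (z.re * Real.cos (θ * t) + z.im * Real.sin (θ * t)) ≤
      2 * ‖z‖ * |θ|⁻¹ := by
  rw [intervalIntegral.integral_comp_mul_left
    (fun y => z.re * Real.cos y + z.im * Real.sin y) hθ]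
  rw [intervalIntegral.integral_add (by apply Continuous.intervalIntegrable; fun_prop)
    (by apply Continuous.intervalIntegrable; fun_prop), intervalIntegral.integral_const_mul,
    intervalIntegral.integral_const_mul, integral_cos, integral_sin]
  refine (le_abs_self _).trans ?_
  simp only [mul_zero, Real.sin_zero, sub_zero, smul_eq_mul, abs_mul, abs_inv, Real.cos_zero]
  rw [mul_comm]
  refine mul_le_mul_of_nonneg_right ?_ (by positivity)
  apply abs_le_of_sq_le_sq _ (by positivity)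
  have h1 : (2 * ‖z‖) ^ 2 = 4 * (z.re ^ 2 + z.im ^ 2) := by
    rw [mul_pow, Complex.sq_norm, Complex.normSq_apply]; ring
  rw [h1]
  have h2 := Real.sin_sq_add_cos_sq (θ * T)
  have h3 := Real.neg_one_le_cos (θ * T)
  set s := Real.sin (θ * T)
  set c := Real.cos (θ * T)
  have h4 : (z.re * s + z.im * (1 - c)) ^ 2 ≤ (z.re ^ 2 + z.im ^ 2) * (s ^ 2 + (1 - c) ^ 2) := by
    nlinarith [sq_nonneg (z.re * (1 - c) - z.im * s)]
  have h5 : s ^ 2 + (1 - c) ^ 2 ≤ 4 := by nlinarith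
  have h6 : 0 ≤ z.re ^ 2 + z.im ^ 2 := by positivity
  nlinarith [mul_le_mul_of_nonneg_left h5 h6]

theorem norm_sq_eq' (N : ℕ) (c : ℕ → ℂ) (t : ℝ) :
    ‖∑ n ∈ Finset.Ioc 0 N, c n * Complex.exp (-((t * Real.log n : ℝ) : ℂ) * Complex.I)‖ ^ 2
      = ∑ m ∈ Finset.Ioc 0 N, ∑ n ∈ Finset.Ioc 0 N,
        ((c m * (starRingEnd ℂ) (c n)).re * Real.cos ((Real.log m - Real.log n) * t) +
          (c m * (starRingEnd ℂ) (c n)).im * Real.sin ((Real.log m - Real.log n) * t)) := by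
  have h0 : ‖∑ n ∈ Finset.Ioc 0 N, c n *
      Complex.exp (-((t * Real.log n : ℝ) : ℂ) * Complex.I)‖ ^ 2 =
      ((∑ n ∈ Finset.Ioc 0 N, c n * Complex.exp (-((t * Real.log n : ℝ) : ℂ) * Complex.I)) *
      (starRingEnd ℂ) (∑ n ∈ Finset.Ioc 0 N, c n *
        Complex.exp (-((t * Real.log n : ℝ) : ℂ) * Complex.I))).re := by
    rw [Complex.mul_conj, Complex.ofReal_re, Complex.normSq_eq_norm_sq]
  rw [h0, map_sum, Finset.sum_mul_sum, Complex.re_sum]
  refine Finset.sum_congr rfl fun m _ => ?_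
  rw [Complex.re_sum]
  refine Finset.sum_congr rfl fun n _ => ?_
  have h1 : c m * Complex.exp (-((t * Real.log m : ℝ) : ℂ) * Complex.I) *
      (starRingEnd ℂ) (c n * Complex.exp (-((t * Real.log n : ℝ) : ℂ) * Complex.I)) =
      (c m * (starRingEnd ℂ) (c n)) *
        Complex.exp (((-((Real.log m - Real.log n) * t) : ℝ) : ℂ) * Complex.I) := by
    rw [map_mul, ← Complex.exp_conj, map_mul, map_neg, Complex.conj_I, Complex.conj_ofReal]
    have : Complex.exp (((-((Real.log m - Real.log n) * t) : ℝ) : ℂ) * Complex.I) =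
        Complex.exp (-((t * Real.log m : ℝ) : ℂ) * Complex.I) *
          Complex.exp (-((t * Real.log n : ℝ) : ℂ) * -Complex.I) := by
      rw [← Complex.exp_add]; congr 1; push_cast; ring
    rw [this]; ring
  rw [h1, Complex.mul_re, Complex.exp_ofReal_mul_I_re, Complex.exp_ofReal_mul_I_im, Real.cos_neg,
    Real.sin_neg]
  ring

/-- mean value theorem with an explicit length, complex coefficients -/
theorem mean_value' (N : ℕ) (c : ℕ → ℂ) (T : ℝ) :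
    ∫ t in (0 : ℝ)..T, ‖∑ n ∈ Finset.Ioc 0 N,
        c n * Complex.exp (-((t * Real.log n : ℝ) : ℂ) * Complex.I)‖ ^ 2 ≤
      (T + 4 * N * (1 + Real.log N)) * ∑ n ∈ Finset.Ioc 0 N, ‖c n‖ ^ 2 := by
  simp_rw [norm_sq_eq']
  rw [intervalIntegral.integral_finsetSum
    (fun m _ => by apply Continuous.intervalIntegrable; fun_prop)]
  have hI : ∀ m ∈ Finset.Ioc 0 N, ∫ t in (0 : ℝ)..T, ∑ n ∈ Finset.Ioc 0 N,
      ((c m * (starRingEnd ℂ) (c n)).re * Real.cos ((Real.log m - Real.log n) * t) +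
          (c m * (starRingEnd ℂ) (c n)).im * Real.sin ((Real.log m - Real.log n) * t)) ≤
      ∑ n ∈ Finset.Ioc 0 N, ((if m = n then T * ‖c m‖ ^ 2 else 0) +
        (‖c m‖ ^ 2 * N * (if m = n then (0 : ℝ) else |(m : ℝ) - n|⁻¹) +
          ‖c n‖ ^ 2 * N * (if n = m then (0 : ℝ) else |(n : ℝ) - m|⁻¹))) := by
    intro m hm
    rw [intervalIntegral.integral_finsetSum
      (fun m _ => by apply Continuous.intervalIntegrable; fun_prop)]
    refine Finset.sum_le_sum fun n hn => ?_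
    rw [Finset.mem_Ioc] at hm hn
    by_cases hmn : m = n
    · subst hmn
      have hz : c m * (starRingEnd ℂ) (c m) = ((‖c m‖ ^ 2 : ℝ) : ℂ) := by
        rw [Complex.mul_conj, Complex.normSq_eq_norm_sq]
      rw [hz, Complex.ofReal_re, Complex.ofReal_im]
      simp
    · rw [if_neg hmn, if_neg hmn, if_neg (Ne.symm hmn), zero_add, abs_sub_comm (n : ℝ)]
      have h0 : Real.log m - Real.log n ≠ 0 := by
        intro h0
        have h1 : (m : ℝ) = n := Real.log_injOn_pos (Set.mem_Ioi.2 (by exact_mod_cast hm.1))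
          (Set.mem_Ioi.2 (by exact_mod_cast hn.1)) (by linarith)
        exact hmn (by exact_mod_cast h1)
      have h1 := int_cs (c m * (starRingEnd ℂ) (c n)) _ T h0
      have h2 := log_gap hm.1 hn.1 hm.2 hn.2 hmn
      have h3 : 0 ≤ (N : ℝ) * |(m : ℝ) - n|⁻¹ := by positivity
      rw [norm_mul, Complex.norm_conj] at h1
      calc _ ≤ _ := h1
        _ ≤ 2 * (‖c m‖ * ‖c n‖) * (N * |(m : ℝ) - n|⁻¹) :=
            mul_le_mul_of_nonneg_left h2 (by positivity)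
        _ ≤ (‖c m‖ ^ 2 + ‖c n‖ ^ 2) * (N * |(m : ℝ) - n|⁻¹) := by
            refine mul_le_mul_of_nonneg_right ?_ h3
            nlinarith [sq_nonneg (‖c m‖ - ‖c n‖)]
        _ = _ := by ring
  refine (Finset.sum_le_sum hI).trans ?_
  simp_rw [Finset.sum_add_distrib]
  have e1 : ∑ m ∈ Finset.Ioc 0 N, ∑ n ∈ Finset.Ioc 0 N, (if m = n then T * ‖c m‖ ^ 2 else 0) =
      T * ∑ n ∈ Finset.Ioc 0 N, ‖c n‖ ^ 2 := by
    rw [Finset.mul_sum]
    refine Finset.sum_congr rfl fun m hm => ?_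
    rw [Finset.sum_ite_eq, if_pos hm]
  have e2 : ∑ m ∈ Finset.Ioc 0 N, ∑ n ∈ Finset.Ioc 0 N,
      ‖c m‖ ^ 2 * N * (if m = n then (0 : ℝ) else |(m : ℝ) - n|⁻¹) ≤
      2 * N * (1 + Real.log N) * ∑ n ∈ Finset.Ioc 0 N, ‖c n‖ ^ 2 := by
    rw [Finset.mul_sum]
    refine Finset.sum_le_sum fun m hm => ?_
    rw [← Finset.mul_sum]
    calc _ ≤ ‖c m‖ ^ 2 * N * (2 * (1 + Real.log N)) :=
          mul_le_mul_of_nonneg_left (sum_gap hm) (by positivity)
      _ = _ := by ring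
  have e3 : ∑ m ∈ Finset.Ioc 0 N, ∑ n ∈ Finset.Ioc 0 N,
      ‖c n‖ ^ 2 * N * (if n = m then (0 : ℝ) else |(n : ℝ) - m|⁻¹) ≤
      2 * N * (1 + Real.log N) * ∑ n ∈ Finset.Ioc 0 N, ‖c n‖ ^ 2 := by
    rw [Finset.sum_comm]; exact e2
  rw [e1]
  linarith

/-- mean square over characters of a sum with complex coefficients -/
theorem mean_sq_le' (q : ℕ) [NeZero q] (M : ℕ) (c : ℕ → ℂ) :
    (∑ χ : DirichletCharacter ℂ q,
      ‖∑ n ∈ Finset.Ioc 0 M, c n * χ (n : ZMod q)‖ ^ 2) / (q.totient : ℝ) ≤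
      (⌈(M : ℝ) / q⌉₊ : ℝ) * ∑ n ∈ Finset.Ioc 0 M, ‖c n‖ ^ 2 := by
  classical
  have hφ : (0 : ℝ) < (q.totient : ℝ) := by
    exact_mod_cast Nat.totient_pos.2 (Nat.pos_of_ne_zero (NeZero.ne q))
  have key : ((∑ χ : DirichletCharacter ℂ q,
      ‖∑ n ∈ Finset.Ioc 0 M, c n * χ (n : ZMod q)‖ ^ 2 : ℝ) : ℂ) =
      ∑ m ∈ Finset.Ioc 0 M, ∑ n ∈ Finset.Ioc 0 M,
        if (m : ZMod q) = (n : ZMod q) ∧ IsUnit (n : ZMod q) then
          c m * (starRingEnd ℂ) (c n) * (q.totient : ℂ) else 0 := by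
    rw [Complex.ofReal_sum]
    have h1 : ∀ χ : DirichletCharacter ℂ q,
        ((‖∑ n ∈ Finset.Ioc 0 M, c n * χ (n : ZMod q)‖ ^ 2 : ℝ) : ℂ) =
        ∑ m ∈ Finset.Ioc 0 M, ∑ n ∈ Finset.Ioc 0 M,
          (c m * (starRingEnd ℂ) (c n)) *
            (χ (m : ZMod q) * (starRingEnd ℂ) (χ (n : ZMod q))) := by
      intro χ
      rw [← Complex.normSq_eq_norm_sq, ← Complex.mul_conj, map_sum, Finset.sum_mul_sum]
      refine Finset.sum_congr rfl fun m _ => Finset.sum_congr rfl fun n _ => ?_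
      rw [map_mul]; ring
    rw [Finset.sum_congr rfl fun χ _ => h1 χ, Finset.sum_comm]
    refine Finset.sum_congr rfl fun m hm => ?_
    rw [Finset.sum_comm]
    refine Finset.sum_congr rfl fun n hn => ?_
    rw [← Finset.mul_sum, orth q m n]
    split_ifs
    · rfl
    · ring
  have key' : (∑ χ : DirichletCharacter ℂ q,
      ‖∑ n ∈ Finset.Ioc 0 M, c n * χ (n : ZMod q)‖ ^ 2 : ℝ) ≤
      ∑ m ∈ Finset.Ioc 0 M, ∑ n ∈ Finset.Ioc 0 M,
        (if (m : ZMod q) = (n : ZMod q) then ‖c m‖ * ‖c n‖ * q.totient else 0) := by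
    have h0 : 0 ≤ (∑ χ : DirichletCharacter ℂ q,
      ‖∑ n ∈ Finset.Ioc 0 M, c n * χ (n : ZMod q)‖ ^ 2 : ℝ) :=
      Finset.sum_nonneg fun _ _ => by positivity
    rw [← Real.norm_of_nonneg h0, ← Complex.norm_real, key]
    refine (norm_sum_le _ _).trans (Finset.sum_le_sum fun m _ => ?_)
    refine (norm_sum_le _ _).trans (Finset.sum_le_sum fun n _ => ?_)
    by_cases h : (m : ZMod q) = (n : ZMod q)
    · rw [if_pos h]
      split_ifs
      · rw [norm_mul, norm_mul, Complex.norm_conj, Complex.norm_natCast]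
      · rw [norm_zero]; positivity
    · rw [if_neg h, if_neg (fun h' => h h'.1), norm_zero]
  rw [div_le_iff₀ hφ]
  have h2 : ∑ m ∈ Finset.Ioc 0 M, ∑ n ∈ Finset.Ioc 0 M,
        (if (m : ZMod q) = (n : ZMod q) then ‖c m‖ * ‖c n‖ * (q.totient : ℝ) else 0) ≤
      ∑ m ∈ Finset.Ioc 0 M, ∑ n ∈ Finset.Ioc 0 M,
        ((if (m : ZMod q) = (n : ZMod q) then ‖c m‖ ^ 2 / 2 * q.totient else 0) +
          (if (n : ZMod q) = (m : ZMod q) then ‖c n‖ ^ 2 / 2 * q.totient else 0)) := by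
    refine Finset.sum_le_sum fun m _ => Finset.sum_le_sum fun n _ => ?_
    by_cases h : (m : ZMod q) = (n : ZMod q)
    · rw [if_pos h, if_pos h, if_pos h.symm]
      have h3 : ‖c m‖ * ‖c n‖ ≤ ‖c m‖ ^ 2 / 2 + ‖c n‖ ^ 2 / 2 := by
        nlinarith [sq_nonneg (‖c m‖ - ‖c n‖)]
      calc _ ≤ (‖c m‖ ^ 2 / 2 + ‖c n‖ ^ 2 / 2) * (q.totient : ℝ) :=
            mul_le_mul_of_nonneg_right h3 hφ.le
        _ = _ := by ring
    · have h' : ¬ ((n : ZMod q) = (m : ZMod q)) := fun e => h e.symm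
      simp [h, h']
  refine key'.trans (h2.trans ?_)
  simp_rw [Finset.sum_add_distrib]
  have e1 : ∑ m ∈ Finset.Ioc 0 M, ∑ n ∈ Finset.Ioc 0 M,
      (if (m : ZMod q) = (n : ZMod q) then ‖c m‖ ^ 2 / 2 * (q.totient : ℝ) else 0) ≤
      (⌈(M : ℝ) / q⌉₊ : ℝ) * (∑ n ∈ Finset.Ioc 0 M, ‖c n‖ ^ 2) * q.totient / 2 := by
    have : (⌈(M : ℝ) / q⌉₊ : ℝ) * (∑ n ∈ Finset.Ioc 0 M, ‖c n‖ ^ 2) * q.totient / 2 =
        ∑ n ∈ Finset.Ioc 0 M, (⌈(M : ℝ) / q⌉₊ : ℝ) * (‖c n‖ ^ 2 / 2 * q.totient) := by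
      rw [← Finset.mul_sum, ← Finset.sum_mul, ← Finset.sum_div]; ring
    rw [this]
    refine Finset.sum_le_sum fun m _ => ?_
    rw [← Finset.sum_filter, Finset.sum_const, nsmul_eq_mul]
    exact mul_le_mul_of_nonneg_right (card_class q M m) (by positivity)
  have e2 : ∑ m ∈ Finset.Ioc 0 M, ∑ n ∈ Finset.Ioc 0 M,
      (if (n : ZMod q) = (m : ZMod q) then ‖c n‖ ^ 2 / 2 * (q.totient : ℝ) else 0) ≤
      (⌈(M : ℝ) / q⌉₊ : ℝ) * (∑ n ∈ Finset.Ioc 0 M, ‖c n‖ ^ 2) * q.totient / 2 := by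
    rw [Finset.sum_comm]; exact e1
  linarith

theorem sum_sq_v (a : ℕ → ℂ) (ha : ∀ n, ‖a n‖ ≤ 1) (x k : ℕ) (hx : 1 ≤ x) (N : ℕ) :
    ∑ n ∈ Finset.Ioc 0 N, ‖(v a x ^ k) n‖ ^ 2 ≤
      (Real.log x + k) ^ (k ^ 2) / (k.factorial : ℝ) ^ k :=
  (Finset.sum_le_sum fun n _ => pow_le_pow_left₀ (norm_nonneg _) (vpow_le a ha x k n) 2).trans
    (sq_sum_le' x k hx N)

theorem char_moment' (a : ℕ → ℂ) (ha : ∀ n, ‖a n‖ ≤ 1) (k x : ℕ) (hx : 1 ≤ x) (q : ℕ) [NeZero q] :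
    (∑ χ : DirichletCharacter ℂ q,
      ‖∑ n ∈ Finset.Ioc 0 x, (((√(n : ℝ))⁻¹ : ℝ) : ℂ) * a n * χ (n : ZMod q)‖ ^ (2 * k)) /
        (q.totient : ℝ) ≤ (⌈((x ^ k : ℕ) : ℝ) / q⌉₊ : ℝ) *
          ((Real.log x + k) ^ (k ^ 2) / (k.factorial : ℝ) ^ k) := by
  have h1 : ∀ χ : DirichletCharacter ℂ q,
      ‖∑ n ∈ Finset.Ioc 0 x, (((√(n : ℝ))⁻¹ : ℝ) : ℂ) * a n * χ (n : ZMod q)‖ ^ (2 * k) =
      ‖∑ n ∈ Finset.Ioc 0 (x ^ k), (v a x ^ k) n * χ (n : ZMod q)‖ ^ 2 := by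
    intro χ
    rw [← pow_eq' a ha (fun n => χ (n : ZMod q)) (by simp) (fun m n _ _ => by simp) x k,
      norm_pow, ← pow_mul, mul_comm]
  rw [Finset.sum_congr rfl fun χ _ => h1 χ]
  exact (mean_sq_le' q (x ^ k) _).trans
    (mul_le_mul_of_nonneg_left (sum_sq_v a ha x k hx _) (by positivity))

theorem t_moment' (a : ℕ → ℂ) (ha : ∀ n, ‖a n‖ ≤ 1) (k x : ℕ) (hx : 1 ≤ x) (T : ℝ) (hT : 0 ≤ T) :
    ∫ t in (0 : ℝ)..T, ‖∑ n ∈ Finset.Ioc 0 x, (((√(n : ℝ))⁻¹ : ℝ) : ℂ) * a n *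
        Complex.exp (-((t * Real.log n : ℝ) : ℂ) * Complex.I)‖ ^ (2 * k) ≤
      (T + 4 * x ^ k * (1 + k * Real.log x)) *
          ((Real.log x + k) ^ (k ^ 2) / (k.factorial : ℝ) ^ k) := by
  have h1 : ∀ t : ℝ, ‖∑ n ∈ Finset.Ioc 0 x, (((√(n : ℝ))⁻¹ : ℝ) : ℂ) * a n *
        Complex.exp (-((t * Real.log n : ℝ) : ℂ) * Complex.I)‖ ^ (2 * k) =
      ‖∑ n ∈ Finset.Ioc 0 (x ^ k), (v a x ^ k) n *
        Complex.exp (-((t * Real.log n : ℝ) : ℂ) * Complex.I)‖ ^ 2 := by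
    intro t
    rw [← pow_eq' a ha (fun n => Complex.exp (-((t * Real.log n : ℝ) : ℂ) * Complex.I)) (by simp)
      (fun m n hm hn => by
        rw [← Complex.exp_add]
        congr 1
        rw [Nat.cast_mul, Real.log_mul (by exact_mod_cast hm) (by exact_mod_cast hn)]
        push_cast; ring) x k,
      norm_pow, ← pow_mul, mul_comm]
  simp_rw [h1]
  refine (mean_value' (x ^ k) _ T).trans ?_
  have h2 : Real.log ((x ^ k : ℕ) : ℝ) = k * Real.log x := by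
    push_cast; rw [Real.log_pow]
  rw [h2]
  push_cast
  have hL : 0 ≤ Real.log x := Real.log_natCast_nonneg x
  exact mul_le_mul_of_nonneg_left (sum_sq_v a ha x k hx _) (by positivity)

end Pool.Agent.H73.SM
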